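import Mathlib

/-!
Windows for union-closed families generated by tiles: a local inequality for all traces on a
window gives a global inequality for the degrees.
-/

set_option autoImplicit false
set_option linter.unusedSectionVars false
set_option linter.unusedVariables false

namespace Pool.Agent.V11304.UC

open Finset

/-- `A` is a (possibly empty) union of members of `T` -/
def Cov {Pt : Type} (T : Finset (Finset Pt)) (A : Finset Pt) : Prop :=
  ∀ a ∈ A, ∃ t ∈ T, a ∈ t ∧ t ⊆ A

/-- the same for bitmasks -/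
def CovC (L : List ℕ) (x : ℕ) : Prop :=
  ∀ i, x.testBit i = true → ∃ t ∈ L, t &&& x = t ∧ t.testBit i = true

/-- the weight of a bitmask -/
def wt (k : ℕ) (c : ℕ → ℕ) (x : ℕ) : ℤ :=
  ∑ i ∈ range k, (c i : ℤ) * (if x.testBit i = true then -1 else 1)

/-- the local inequality -/
def Good (k : ℕ) (c : ℕ → ℕ) (full part : List ℕ) : Prop :=
  ∀ Q : List ℕ, Q.Sublist part → ∀ X : Finset ℕ, (∀ x ∈ X, x < 2 ^ k) →
    (∀ x ∈ X, CovC (full ++ Q) x) →
    (∀ x ∈ X, ∀ y, y < 2 ^ k → CovC (full ++ Q) y →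
      (∀ t ∈ Q, t &&& x = t → t &&& y = t) → y ∈ X) →
    ∑ x ∈ X, wt k c x ≤ 0

theorem and_eq_iff (t x : ℕ) : t &&& x = t ↔ ∀ j, t.testBit j = true → x.testBit j = true := by
  constructor
  · intro h j hj
    rw [← h, Nat.testBit_and, Bool.and_eq_true] at hj
    exact hj.2
  · intro h
    apply Nat.eq_of_testBit_eq
    intro j
    rw [Nat.testBit_and]
    have := h j
    cases h1 : t.testBit j
    · rfl
    · rw [this h1]; rfl

theorem window {Pt : Type} [Fintype Pt] [DecidableEq Pt] (T : Finset (Finset Pt)) {k : ℕ}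
    {c : ℕ → ℕ} {full part : List ℕ} (hgood : Good k c full part) (g : ℕ → Pt)
    (hg : ∀ i < k, ∀ j < k, g i = g j → i = j)
    (H1 : ∀ t ∈ full, ∃ A ∈ T, ∀ p, p ∈ A ↔ ∃ i < k, t.testBit i = true ∧ g i = p)
    (H2 : ∀ A ∈ T, ∃ t : ℕ, (∀ i < k, t.testBit i = true ↔ g i ∈ A) ∧
      (∀ i, k ≤ i → t.testBit i = false) ∧
      (t = 0 ∨ t ∈ part ∨ (t ∈ full ∧ ∀ p ∈ A, ∃ i < k, g i = p)))
    (F : Finset (Finset Pt)) (hF : ∀ A, A ∈ F ↔ Cov T A) :
    ∑ i ∈ range k, (c i : ℤ) * ((F.card : ℤ) - 2 * ((F.filter (fun A => g i ∈ A)).card : ℤ)) ≤ 0 := by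
  classical
  set G : Finset Pt := (range k).image g with hG
  have mG : ∀ p, p ∈ G ↔ ∃ i < k, g i = p := by
    intro p
    simp [hG]
  let code : Finset Pt → ℕ := fun A => Nat.ofBits (fun i : Fin k => decide (g i ∈ A))
  have code_lt : ∀ A, code A < 2 ^ k := fun A => Nat.ofBits_lt_two_pow _
  have code_bit : ∀ A, ∀ i < k, (code A).testBit i = true ↔ g i ∈ A := by
    intro A i hi
    show (Nat.ofBits (fun i : Fin k => decide (g i ∈ A))).testBit i = true ↔ _
    rw [Nat.testBit_ofBits_lt _ i hi]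
    simp
  let dec : ℕ → Finset Pt := fun x => ((range k).filter (fun i => x.testBit i = true)).image g
  have mdec : ∀ x p, p ∈ dec x ↔ ∃ i < k, x.testBit i = true ∧ g i = p := by
    intro x p
    simp only [dec, mem_image, mem_filter, mem_range]
    constructor
    · rintro ⟨i, ⟨h1, h2⟩, h3⟩; exact ⟨i, h1, h2, h3⟩
    · rintro ⟨i, h1, h2, h3⟩; exact ⟨i, ⟨h1, h2⟩, h3⟩
  have gdec : ∀ x, ∀ i < k, g i ∈ dec x ↔ x.testBit i = true := by
    intro x i hi
    rw [mdec]
    constructor
    · rintro ⟨j, hj, h1, h2⟩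
      rw [← hg j hj i hi h2]; exact h1
    · intro h
      exact ⟨i, hi, h, rfl⟩
  have bit_lt : ∀ x i, x < 2 ^ k → x.testBit i = true → i < k := by
    intro x i hx hi
    by_contra hc
    rw [Nat.testBit_lt_two_pow (lt_of_lt_of_le hx (Nat.pow_le_pow_right (by norm_num)
      (not_lt.1 hc)))] at hi
    exact absurd hi (by simp)
  have hsplit : ∀ A : Finset Pt, (A \ G) ∪ dec (code A) = A := by
    intro A
    ext p
    rw [mem_union, mem_sdiff, mG, mdec]
    constructor
    · rintro (h | ⟨i, h1, h2, rfl⟩)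
      · exact h.1
      · exact (code_bit A i h1).1 h2
    · intro h
      by_cases hp : ∃ i < k, g i = p
      · obtain ⟨i, hi, rfl⟩ := hp
        exact Or.inr ⟨i, hi, (code_bit A i hi).2 h, rfl⟩
      · exact Or.inl ⟨h, hp⟩
  -- swap the sums
  have hswap : ∑ i ∈ range k, (c i : ℤ) * ((F.card : ℤ) -
      2 * ((F.filter (fun A => g i ∈ A)).card : ℤ)) = ∑ A ∈ F, wt k c (code A) := by
    unfold wt
    rw [Finset.sum_comm]
    refine Finset.sum_congr rfl fun i hi => ?_
    rw [← Finset.mul_sum]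
    congr 1
    have h1 : ∀ A ∈ F, (if (code A).testBit i = true then (-1 : ℤ) else 1) =
        1 - 2 * (if g i ∈ A then 1 else 0) := by
      intro A _
      by_cases h : g i ∈ A
      · rw [if_pos ((code_bit A i (mem_range.1 hi)).2 h), if_pos h]; norm_num
      · rw [if_neg (fun hh => h ((code_bit A i (mem_range.1 hi)).1 hh)), if_neg h]; norm_num
    rw [Finset.sum_congr rfl h1, Finset.sum_sub_distrib, ← Finset.mul_sum, Finset.card_filter]
    simp
  rw [hswap, ← Finset.sum_fiberwise_of_maps_to (s := F) (t := F.image (fun A => A \ G))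
    (g := fun A => A \ G) (fun A hA => mem_image_of_mem _ hA)]
  refine Finset.sum_nonpos fun B hB => ?_
  have hBG : ∀ p ∈ B, p ∉ G := by
    obtain ⟨A, _, rfl⟩ := mem_image.1 hB
    intro p hp
    exact (mem_sdiff.1 hp).2
  have hgB : ∀ i < k, g i ∉ B := fun i hi h => hBG _ h ((mG _).2 ⟨i, hi, rfl⟩)
  have hinj : Set.InjOn code ((F.filter (fun A => A \ G = B) : Finset (Finset Pt)) :
      Set (Finset Pt)) := by
    intro A hA A' hA' he
    have h1 := (mem_filter.1 (mem_coe.1 hA)).2
    have h2 := (mem_filter.1 (mem_coe.1 hA')).2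
    rw [← hsplit A, ← hsplit A', h1, h2, he]
  rw [← Finset.sum_image (s := F.filter (fun A => A \ G = B)) (g := code)
    (f := fun x => wt k c x) hinj]
  -- membership in the image
  have mX : ∀ x, x ∈ (F.filter (fun A => A \ G = B)).image code ↔
      x < 2 ^ k ∧ Cov T (B ∪ dec x) := by
    intro x
    rw [mem_image]
    constructor
    · rintro ⟨A, hA, rfl⟩
      obtain ⟨h1, h2⟩ := mem_filter.1 hA
      refine ⟨code_lt A, ?_⟩
      rw [← h2, hsplit A]
      exact (hF A).1 h1
    · rintro ⟨h1, h2⟩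
      refine ⟨B ∪ dec x, mem_filter.2 ⟨(hF _).2 h2, ?_⟩, ?_⟩
      · ext p
        rw [mem_sdiff, mem_union, mdec]
        constructor
        · rintro ⟨h3 | ⟨i, h4, h5, rfl⟩, h6⟩
          · exact h3
          · exact absurd ((mG _).2 ⟨i, h4, rfl⟩) h6
        · intro h3
          exact ⟨Or.inl h3, hBG p h3⟩
      · apply Nat.eq_of_testBit_eq
        intro i
        by_cases hi : i < k
        · rw [Bool.eq_iff_iff, code_bit _ i hi, mem_union, gdec x i hi]
          constructor
          · rintro (h3 | h3)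
            · exact absurd h3 (hgB i hi)
            · exact h3
          · intro h3; exact Or.inr h3
        · rw [Nat.testBit_lt_two_pow (lt_of_lt_of_le (code_lt _)
            (Nat.pow_le_pow_right (by norm_num) (not_lt.1 hi))),
            Nat.testBit_lt_two_pow (lt_of_lt_of_le h1
            (Nat.pow_le_pow_right (by norm_num) (not_lt.1 hi)))]
  -- available partial traces
  let Qp : ℕ → Prop := fun t => (∀ i, k ≤ i → t.testBit i = false) ∧
    ∃ A ∈ T, (∀ i < k, t.testBit i = true ↔ g i ∈ A) ∧ ∀ p ∈ A, p ∉ G → p ∈ B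
  set Q := part.filter (fun t => decide (Qp t)) with hQ
  have mQ : ∀ t, t ∈ Q ↔ t ∈ part ∧ Qp t := by
    intro t
    simp [hQ]
  refine hgood Q List.filter_sublist _ (fun x hx => ((mX x).1 hx).1) ?_ ?_
  · intro x hx i hi
    obtain ⟨hx1, hx2⟩ := (mX x).1 hx
    have hik := bit_lt x i hx1 hi
    obtain ⟨A, hA, hiA, hAs⟩ := hx2 (g i) (mem_union_right _ ((gdec x i hik).2 hi))
    obtain ⟨t, ht1, ht2, ht3⟩ := H2 A hA
    have hit := (ht1 i hik).2 hiA
    have hsub : t &&& x = t := by
      rw [and_eq_iff]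
      intro j hj
      have hjk : j < k := by
        by_contra hc
        rw [ht2 j (not_lt.1 hc)] at hj
        exact absurd hj (by simp)
      rcases mem_union.1 (hAs ((ht1 j hjk).1 hj)) with h | h
      · exact absurd h (hgB j hjk)
      · exact (gdec x j hjk).1 h
    rcases ht3 with rfl | h | ⟨h, -⟩
    · rw [Nat.zero_testBit] at hit
      exact absurd hit (by simp)
    · refine ⟨t, List.mem_append_right _ ((mQ t).2 ⟨h, ht2, A, hA, ht1, ?_⟩), hsub, hit⟩
      intro p hp hpG
      rcases mem_union.1 (hAs hp) with h1 | h1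
      · exact h1
      · obtain ⟨j, hj, -, rfl⟩ := (mdec x p).1 h1
        exact absurd ((mG _).2 ⟨j, hj, rfl⟩) hpG
    · exact ⟨t, List.mem_append_left _ h, hsub, hit⟩
  · intro x hx y hy hyc hD
    obtain ⟨hx1, hx2⟩ := (mX x).1 hx
    refine (mX y).2 ⟨hy, ?_⟩
    intro p hp
    rcases mem_union.1 hp with hpB | hpy
    · -- covering a point of `B`
      obtain ⟨A, hA, hpA, hAs⟩ := hx2 p (mem_union_left _ hpB)
      obtain ⟨t, ht1, ht2, ht3⟩ := H2 A hA
      refine ⟨A, hA, hpA, ?_⟩
      have hAB : ∀ q ∈ A, q ∉ G → q ∈ B := by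
        intro q hq hqG
        rcases mem_union.1 (hAs hq) with h1 | h1
        · exact h1
        · obtain ⟨j, hj, -, rfl⟩ := (mdec x q).1 h1
          exact absurd ((mG _).2 ⟨j, hj, rfl⟩) hqG
      have hsub : t &&& x = t := by
        rw [and_eq_iff]
        intro j hj
        have hjk : j < k := by
          by_contra hc
          rw [ht2 j (not_lt.1 hc)] at hj
          exact absurd hj (by simp)
        rcases mem_union.1 (hAs ((ht1 j hjk).1 hj)) with h | h
        · exact absurd h (hgB j hjk)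
        · exact (gdec x j hjk).1 h
      have hty : t &&& y = t := by
        rcases ht3 with rfl | h | ⟨h, hall⟩
        · rw [Nat.zero_and]
        · exact hD t ((mQ t).2 ⟨h, ht2, A, hA, ht1, hAB⟩) hsub
        · obtain ⟨i, hi, rfl⟩ := hall p hpA
          exact absurd hpB (hgB i hi)
      intro q hq
      by_cases hqG : q ∈ G
      · obtain ⟨i, hi, rfl⟩ := (mG q).1 hqG
        exact mem_union_right _ ((gdec y i hi).2 ((and_eq_iff t y).1 hty i ((ht1 i hi).2 hq)))
      · exact mem_union_left _ (hAB q hq hqG)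
    · obtain ⟨i, hi, hyi, rfl⟩ := (mdec y p).1 hpy
      obtain ⟨t, ht, hty, hti⟩ := hyc i hyi
      rcases List.mem_append.1 ht with h | h
      · obtain ⟨A, hA, hAe⟩ := H1 t h
        refine ⟨A, hA, (hAe _).2 ⟨i, hi, hti, rfl⟩, ?_⟩
        intro q hq
        obtain ⟨j, hj, htj, rfl⟩ := (hAe q).1 hq
        exact mem_union_right _ ((gdec y j hj).2 ((and_eq_iff t y).1 hty j htj))
      · obtain ⟨-, -, A, hA, ht1, hAB⟩ := (mQ t).1 h
        refine ⟨A, hA, (ht1 i hi).1 hti, ?_⟩
        intro q hq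
        by_cases hqG : q ∈ G
        · obtain ⟨j, hj, rfl⟩ := (mG q).1 hqG
          exact mem_union_right _ ((gdec y j hj).2
            ((and_eq_iff t y).1 hty j ((ht1 j hj).2 hq)))
        · exact mem_union_left _ (hAB q hq hqG)

end Pool.Agent.V11304.UC
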