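import Mathlib
import Pool.Agent.V11304.UC.Window

/-!
The local inequality for the 3x3 grid with rows and columns: reduction to a computation.
-/

set_option autoImplicit false
set_option linter.unusedSectionVars false
set_option linter.unusedVariables false

namespace Pool.Agent.V11304.UC

open Finset

/-- sublists -/
def subs : List ℕ → List (List ℕ)
  | [] => [[]]
  | a :: l => (subs l).flatMap (fun s => [s, a :: s])

theorem mem_subs {Q l : List ℕ} (h : Q.Sublist l) : Q ∈ subs l := by
  induction h with
  | slnil => simp [subs]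
  | cons a h ih =>
    rw [subs, List.mem_flatMap]
    exact ⟨_, ih, by simp⟩
  | cons_cons a h ih =>
    rw [subs, List.mem_flatMap]
    exact ⟨_, ih, by simp⟩

def bits9 : List ℕ := [1, 2, 4, 8, 16, 32, 64, 128, 256]

def grid : List ℕ := [7, 56, 448, 73, 146, 292]

/-- table: entry `x` (16 bits) is the part of `x` not covered by full lines inside `x`, plus
`512 *` the number of elements of `x` -/
def tab : ℕ := 76694268520095477107644094323010547294297637797087259040733125841082136978841124602561541160001624407521699220488217674970687803114122985151451653401864562968737715995551816958132479855689551214314174613896891097866532142493655162685314078660754471786947001772459925394435062116241515104038310735315386085461695915599095315352089054660985803625321509144268226484629802469661346694194631248531710090922882238089488633390399218606921707403109432752614281164303860876408914646179861833471322114233705766243783240466452310229498598466003607660029218012687314838801307120485191660049687187487011260157051189233094578961170374777709258198050641273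5136904174788321813699445496946007240035015256719625532775901655772418640164964050630031239742772848930391151609355296554268499239772168216006785787393470504790993837733418321794200110394774126702546258813047494900686065476671435738218704938560254403816123618510400434302432159589007759638268936603517048907273874543282903927417327752896754849362055650554526205864569182435425817921845906107069778625164554975427692320878229236830874581908729581840160646826047507337094986848893466517689364998629089233677179412476195834996505143298983093309597889461617088207340034840412366142745302305214944289896944998301700587837079545662418403528656788940278101849493780529322772467109714153049443056382052686536034347771067392271866879477783809789371703249919232744345181944794007641545966040160643712857236649024031941070366038889412043038422010538761684412696710949577060962271996600296597180312056031785759806673982041639798683463254338889480807927564391707120027383495384228953648960260938733531678758856143567385010062199577259284792181375579951971743234375554514088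62000674718410240386702139845867456096080487356409591496680098575938442527332436928966072154887168412156952619591698877183442461403463164637203934713640697851180733806463383236232084756222377496542699689396053694703286370098565757183546318475181880064371690503077342429783556868195929707704811087155439325782796845040431858683991634208852966167087965543366908890019111513352639985813830184959146823280747172716705755652254706466121153631814622479266566341192395895609107307041206805708864581742534102495875447270613229379260911062014339121882191019674028910956770025764233229989578008793409125455834273482036935053830189131991777740092065662093589667934390882942500654593679233488848308624152030597705502934952035529840153632653380074844209808554301069954484600832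

def fd (x : ℕ) : ℕ := Nat.mod (Nat.shiftRight tab (Nat.mul 16 x)) 65536

def contrib (Pc f s : ℕ) : ℕ :=
  bif Nat.beq (Nat.land f Pc) 0 then Nat.add (Nat.add 9 (Nat.mul 16384 (Nat.div f 512))) s else s

def sumW (Pc S : ℕ) (ys : List ℕ) : ℕ :=
  @List.rec ℕ (fun _ => ℕ) 0 (fun y _ ih => contrib Pc (fd (Nat.lor S y)) ih) ys

def getA (A S : ℕ) : ℕ := Nat.mod (Nat.shiftRight A (Nat.mul 16 S)) 65536

def inn (A S : ℕ) (Q : List ℕ) : ℕ :=
  @List.rec ℕ (fun _ => ℕ) 0
    (fun p _ s => bif Nat.beq (Nat.land p S) 0 then s else Nat.add (getA A (Nat.xor S p)) s) Q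

def miss (S : ℕ) (Q : List ℕ) : ℕ :=
  @List.rec ℕ (fun _ => ℕ) 0 (fun p _ s => bif Nat.beq (Nat.land p S) 0 then Nat.succ s else s) Q

def step (Q : List ℕ) (W : ℕ) (A S : ℕ) : ℕ :=
  Nat.add A (Nat.shiftLeft (Nat.div (Nat.pred (Nat.add (Nat.sub (Nat.add
    (Nat.mul 60 (Nat.mod W 8192)) (inn A S Q)) (Nat.mul 60 (Nat.div W 8192))) (miss S Q)))
    (miss S Q)) (Nat.mul 16 S))

def mkA (Q ys : List ℕ) (Pc : ℕ) (Ss : List ℕ) (A : ℕ) : ℕ :=
  (@List.rec ℕ (fun _ => ℕ → ℕ) (fun A => A)
    (fun S _ ih A => ih (step Q (sumW Pc S ys) A S)) Ss) A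

def chk (Q : List ℕ) (W A S : ℕ) : Bool :=
  Nat.ble (Nat.add (Nat.mul 60 (Nat.mod W 8192)) (inn A S Q))
    (Nat.add (Nat.mul 60 (Nat.div W 8192)) (Nat.mul (miss S Q) (getA A S)))

def ysL (P : ℕ) (l : List ℕ) : List ℕ :=
  @List.rec ℕ (fun _ => List ℕ) []
    (fun y _ ih => bif Nat.beq (Nat.land y P) 0 then y :: ih else ih) l

def ysOf (P : ℕ) : List ℕ := ysL P (List.range 512)

def allS (Q ys : List ℕ) (Pc A : ℕ) (Ss : List ℕ) : Bool :=
  @List.rec ℕ (fun _ => Bool) true
    (fun S _ ih => bif chk Q (sumW Pc S ys) A S then ih else false) Ss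

def checkP (Q : List ℕ) (P Pc : ℕ) : Bool :=
  allS Q (ysOf P) Pc (mkA Q (ysOf P) Pc (ysOf Pc) 0) (ysOf Pc)

def maskOf (Q : List ℕ) : ℕ := @List.rec ℕ (fun _ => ℕ) 0 (fun p _ s => Nat.add p s) Q

def checkQ (Q : List ℕ) : Bool := checkP Q (maskOf Q) (Nat.sub 511 (maskOf Q))

/-! ### Bits -/

theorem and_two_pow_eq_zero (S i : ℕ) : 2 ^ i &&& S = 0 ↔ S.testBit i = false := by
  constructor
  · intro h
    have h1 : (2 ^ i &&& S).testBit i = false := by rw [h, Nat.zero_testBit]
    rw [Nat.testBit_and, Nat.testBit_two_pow_self, Bool.true_and] at h1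
    exact h1
  · intro h
    apply Nat.eq_of_testBit_eq
    intro j
    rw [Nat.testBit_and, Nat.testBit_two_pow, Nat.zero_testBit]
    by_cases hj : i = j
    · subst hj; rw [h]; simp
    · simp [hj]

theorem or_xor_two_pow (S i : ℕ) (h : S.testBit i = false) : (S ||| 2 ^ i) ^^^ 2 ^ i = S := by
  apply Nat.eq_of_testBit_eq
  intro j
  rw [Nat.testBit_xor, Nat.testBit_or, Nat.testBit_two_pow]
  by_cases hj : i = j
  · subst hj; rw [h]; simp
  · simp [hj]

/-- sum over members of a list with a property -/
theorem flow_list (a : ℕ → ℕ) (U : Finset ℕ) (Q : List ℕ) (hQ : ∀ p ∈ Q, ∃ i, p = 2 ^ i)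
    (hU : ∀ S ∈ U, ∀ p ∈ Q, p &&& S = 0 → S ||| p ∈ U) :
    ∑ S ∈ U, miss S Q * a S ≤ ∑ S ∈ U, (@List.rec ℕ (fun _ => ℕ) 0
      (fun p _ s => bif Nat.beq (Nat.land p S) 0 then s else Nat.add (a (Nat.xor S p)) s) Q : ℕ) := by
  induction Q with
  | nil => simp [miss]
  | cons p Q ih =>
    have h1 := ih (fun q hq => hQ q (List.mem_cons_of_mem _ hq))
      (fun S hS q hq => hU S hS q (List.mem_cons_of_mem _ hq))
    obtain ⟨i, rfl⟩ := hQ p List.mem_cons_self
    have e1 : ∀ S, miss S (2 ^ i :: Q) * a S =
        (if 2 ^ i &&& S = 0 then a S else 0) + miss S Q * a S := by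
      intro S
      show (bif Nat.beq (Nat.land (2 ^ i) S) 0 then Nat.succ (miss S Q) else miss S Q) * a S = _
      by_cases h : 2 ^ i &&& S = 0
      · have h' : Nat.beq (Nat.land (2 ^ i) S) 0 = true := by
          rw [Nat.beq_eq]; exact h
        rw [h', if_pos h, cond_true, Nat.succ_mul]
        ring
      · have h' : Nat.beq (Nat.land (2 ^ i) S) 0 = false := by
          rw [← Bool.not_eq_true, Nat.beq_eq]; exact h
        rw [h', if_neg h, cond_false, zero_add]
    have e2 : ∀ S, (@List.rec ℕ (fun _ => ℕ) 0
      (fun p _ s => bif Nat.beq (Nat.land p S) 0 then s else Nat.add (a (Nat.xor S p)) s)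
        (2 ^ i :: Q) : ℕ) = (if 2 ^ i &&& S = 0 then 0 else a (S ^^^ 2 ^ i)) +
        (@List.rec ℕ (fun _ => ℕ) 0
      (fun p _ s => bif Nat.beq (Nat.land p S) 0 then s else Nat.add (a (Nat.xor S p)) s) Q : ℕ) := by
      intro S
      show (bif Nat.beq (Nat.land (2 ^ i) S) 0 then _ else Nat.add (a (Nat.xor S (2 ^ i))) _) = _
      by_cases h : 2 ^ i &&& S = 0
      · have h' : Nat.beq (Nat.land (2 ^ i) S) 0 = true := by
          rw [Nat.beq_eq]; exact h
        rw [h', if_pos h, cond_true, zero_add]
      · have h' : Nat.beq (Nat.land (2 ^ i) S) 0 = false := by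
          rw [← Bool.not_eq_true, Nat.beq_eq]; exact h
        rw [h', if_neg h, cond_false]
        rfl
    rw [Finset.sum_congr rfl (fun S _ => e1 S), Finset.sum_congr rfl (fun S _ => e2 S),
      Finset.sum_add_distrib, Finset.sum_add_distrib]
    refine Nat.add_le_add ?_ h1
    have e3 : ∀ S ∈ U, (if 2 ^ i &&& S = 0 then 0 else a (S ^^^ 2 ^ i)) =
        (if ¬ (2 ^ i &&& S = 0) then a (S ^^^ 2 ^ i) else 0) := by
      intro S _
      by_cases h : 2 ^ i &&& S = 0 <;> simp [h]
    rw [Finset.sum_congr rfl e3, ← Finset.sum_filter, ← Finset.sum_filter]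
    have e4 : ∑ S ∈ U.filter (fun S => 2 ^ i &&& S = 0), a S =
        ∑ S ∈ (U.filter (fun S => 2 ^ i &&& S = 0)).image (fun S => S ||| 2 ^ i),
          a (S ^^^ 2 ^ i) := by
      rw [Finset.sum_image]
      · refine Finset.sum_congr rfl fun S hS => ?_
        rw [or_xor_two_pow S i ((and_two_pow_eq_zero S i).1 (mem_filter.1 hS).2)]
      · intro S hS S' hS' he
        have h2 := or_xor_two_pow S i ((and_two_pow_eq_zero S i).1 (mem_filter.1 hS).2)
        have h3 := or_xor_two_pow S' i ((and_two_pow_eq_zero S' i).1 (mem_filter.1 hS').2)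
        have he' : S ||| 2 ^ i = S' ||| 2 ^ i := he
        rw [← h2, ← h3, he']
    rw [e4]
    apply Finset.sum_le_sum_of_subset
    intro S hS
    obtain ⟨S0, hS0, rfl⟩ := mem_image.1 hS
    obtain ⟨h2, h3⟩ := mem_filter.1 hS0
    refine mem_filter.2 ⟨hU S0 h2 _ List.mem_cons_self h3, ?_⟩
    rw [and_two_pow_eq_zero, Nat.testBit_or, Nat.testBit_two_pow_self]
    simp

theorem ysL_eq (P : ℕ) (l : List ℕ) : ysL P l = l.filter (fun y => Nat.beq (Nat.land y P) 0) := by
  induction l with
  | nil => rfl
  | cons z l ih =>
    show (bif Nat.beq (Nat.land z P) 0 then z :: ysL P l else ysL P l) = _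
    rw [ih, List.filter_cons]
    cases h : Nat.beq (Nat.land z P) 0
    · simp only [cond_false, Bool.false_eq_true, if_false]
    · simp only [cond_true, if_true]

theorem mem_ysOf (P y : ℕ) : y ∈ ysOf P ↔ y < 512 ∧ y &&& P = 0 := by
  unfold ysOf
  rw [ysL_eq, List.mem_filter, List.mem_range, Nat.beq_eq]
  rfl

theorem ysOf_nodup (P : ℕ) : (ysOf P).Nodup := by
  unfold ysOf
  rw [ysL_eq]
  exact List.Nodup.filter _ List.nodup_range

/-- the packed sum -/
theorem sumW_eq (Pc S : ℕ) (ys : List ℕ) (hys : ys.Nodup) :
    sumW Pc S ys = 9 * (ys.toFinset.filter (fun y => fd (S ||| y) &&& Pc = 0)).card +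
      8192 * ∑ y ∈ ys.toFinset.filter (fun y => fd (S ||| y) &&& Pc = 0),
        2 * (fd (S ||| y) / 512) := by
  induction ys with
  | nil => simp [sumW]
  | cons y ys ih =>
    obtain ⟨h1, h2⟩ := List.nodup_cons.1 hys
    have h3 := ih h2
    have hy : y ∉ ys.toFinset := by rw [List.mem_toFinset]; exact h1
    have e : sumW Pc S (y :: ys) = contrib Pc (fd (S ||| y)) (sumW Pc S ys) := rfl
    rw [e, List.toFinset_cons, Finset.filter_insert, h3]
    unfold contrib
    by_cases h : fd (S ||| y) &&& Pc = 0
    · have h' : Nat.beq (Nat.land (fd (S ||| y)) Pc) 0 = true := by rw [Nat.beq_eq]; exact h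
      rw [h', cond_true, if_pos h, Finset.card_insert_of_notMem
        (fun hh => hy (mem_filter.1 hh).1), Finset.sum_insert (fun hh => hy (mem_filter.1 hh).1)]
      show 9 + 16384 * (fd (S ||| y) / 512) + _ = _
      ring
    · have h' : Nat.beq (Nat.land (fd (S ||| y)) Pc) 0 = false := by
        rw [← Bool.not_eq_true, Nat.beq_eq]; exact h
      rw [h', cond_false, if_neg h]

theorem allS_iff {Q ys : List ℕ} {Pc A : ℕ} {Ss : List ℕ} (h : allS Q ys Pc A Ss = true) :
    ∀ S ∈ Ss, chk Q (sumW Pc S ys) A S = true := by
  induction Ss with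
  | nil => simp
  | cons S Ss ih =>
    have h1 : (bif chk Q (sumW Pc S ys) A S then allS Q ys Pc A Ss else false) = true := h
    cases h2 : chk Q (sumW Pc S ys) A S
    · rw [h2] at h1; exact absurd h1 (by simp)
    · rw [h2, cond_true] at h1
      intro S' hS'
      rcases List.mem_cons.1 hS' with rfl | h3
      · exact h2
      · exact ih h1 S' h3

/-! ### Table facts -/

theorem tab_bits : ∀ x < 512, ∀ i < 9, ((fd x).testBit i = true ↔ (x.testBit i = true ∧
    ¬ ∃ t ∈ grid, t &&& x = t ∧ t.testBit i = true)) := by
  have h : (List.range 512).all (fun x => (List.range 9).all (fun i =>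
      (fd x).testBit i == (x.testBit i && !(grid.any (fun t => Nat.beq (Nat.land t x) t &&
        t.testBit i))))) = true := by
    decide +kernel
  intro x hx i hi
  rw [List.all_eq_true] at h
  have h1 := h x (List.mem_range.2 hx)
  rw [List.all_eq_true] at h1
  have h2 := h1 i (List.mem_range.2 hi)
  rw [beq_iff_eq] at h2
  rw [h2, Bool.and_eq_true, Bool.not_eq_true', ← Bool.not_eq_true, List.any_eq_true]
  simp only [Bool.and_eq_true, Nat.beq_eq]
  rfl

theorem tab_wt : ∀ x < 512, wt 9 (fun _ => 1) x = 9 - 2 * ((fd x / 512 : ℕ) : ℤ) := by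
  have h : (List.range 512).all (fun x => decide
      (((List.range 9).map (fun i => if x.testBit i = true then 1 else 0)).sum = fd x / 512)) =
      true := by
    decide +kernel
  intro x hx
  rw [List.all_eq_true] at h
  have h1 := of_decide_eq_true (h x (List.mem_range.2 hx))
  rw [← h1]
  unfold wt
  simp only [Finset.sum_range_succ, Finset.sum_range_zero, List.range_succ, List.range_zero,
    List.map_append, List.sum_append, List.map_nil, List.nil_append, List.map_cons,
    List.sum_cons, List.sum_nil]
  push_cast
  split_ifs <;> norm_num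

theorem compl_bits : ∀ P < 512, ∀ i < 9, (511 - P).testBit i = !(P.testBit i) := by
  have h : (List.range 512).all (fun x => (List.range 9).all (fun i =>
      (511 - x).testBit i == !(x.testBit i))) = true := by
    decide +kernel
  intro x hx i hi
  rw [List.all_eq_true] at h
  have h1 := h x (List.mem_range.2 hx)
  rw [List.all_eq_true] at h1
  have h2 := h1 i (List.mem_range.2 hi)
  rwa [beq_iff_eq] at h2

theorem sub_facts : ∀ Q ∈ subs bits9, (∀ p ∈ Q, ∃ i < 9, p = 2 ^ i) ∧ maskOf Q < 512 ∧
    ∀ i < 9, ((maskOf Q).testBit i = true ↔ 2 ^ i ∈ Q) := by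
  have h : (subs bits9).all (fun Q => Q.all (fun p => (List.range 9).any (fun i =>
      Nat.beq p (2 ^ i))) && (Nat.blt (maskOf Q) 512 && (List.range 9).all (fun i =>
        (maskOf Q).testBit i == Q.any (fun p => Nat.beq p (2 ^ i))))) = true := by
    decide +kernel
  intro Q hQ
  rw [List.all_eq_true] at h
  have h1 := h Q hQ
  rw [Bool.and_eq_true, Bool.and_eq_true, List.all_eq_true, List.all_eq_true] at h1
  obtain ⟨h2, h3, h4⟩ := h1
  refine ⟨?_, ?_, ?_⟩
  · intro p hp
    have h5 := h2 p hp
    rw [List.any_eq_true] at h5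
    obtain ⟨i, hi, h6⟩ := h5
    exact ⟨i, List.mem_range.1 hi, Nat.beq_eq ▸ h6⟩
  · rwa [Nat.blt_eq] at h3
  · intro i hi
    have h5 := h4 i (List.mem_range.2 hi)
    rw [beq_iff_eq] at h5
    rw [h5, List.any_eq_true]
    constructor
    · rintro ⟨p, hp, h6⟩
      rw [Nat.beq_eq] at h6
      rw [← h6]; exact hp
    · intro hp
      exact ⟨_, hp, by rw [Nat.beq_eq]⟩

theorem lt512_bit {x i : ℕ} (hx : x < 512) (hi : x.testBit i = true) : i < 9 := by
  by_contra hc
  rw [Nat.testBit_lt_two_pow (lt_of_lt_of_le (show x < 2 ^ 9 from hx)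
    (Nat.pow_le_pow_right (by norm_num) (not_lt.1 hc)))] at hi
  exact absurd hi (by simp)

theorem and_eq_zero_iff (x y : ℕ) :
    x &&& y = 0 ↔ ∀ i, x.testBit i = true → y.testBit i = true → False := by
  constructor
  · intro h i h1 h2
    have h3 : (x &&& y).testBit i = false := by rw [h, Nat.zero_testBit]
    rw [Nat.testBit_and, h1, h2] at h3
    exact absurd h3 (by simp)
  · intro h
    apply Nat.eq_of_testBit_eq
    intro i
    rw [Nat.testBit_and, Nat.zero_testBit]
    cases h1 : x.testBit i
    · rfl
    · cases h2 : y.testBit i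
      · rfl
      · exact (h i h1 h2).elim

/-- **the computation implies the local inequality** -/
theorem good9 (hall : ∀ Q ∈ subs bits9, checkQ Q = true) :
    Good 9 (fun _ => 1) grid bits9 := by
  classical
  intro Q hQsub X hX hcov hcl
  have hQm := mem_subs hQsub
  obtain ⟨hq1, hP, hq2⟩ := sub_facts Q hQm
  have hchk := hall Q hQm
  set P := maskOf Q with hPdef
  set Pc := 511 - P with hPc
  have hPcb : ∀ i, Pc.testBit i = true ↔ (i < 9 ∧ P.testBit i = false) := by
    intro i
    constructor
    · intro h
      have hi : i < 9 := lt512_bit (show Pc < 512 by omega) h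
      rw [compl_bits P hP i hi] at h
      exact ⟨hi, by simpa using h⟩
    · rintro ⟨hi, h⟩
      rw [compl_bits P hP i hi, h]; rfl
  set A := mkA Q (ysOf P) Pc (ysOf Pc) 0 with hA
  have hallS := allS_iff (show allS Q (ysOf P) Pc A (ysOf Pc) = true from hchk)
  -- coverage in terms of the table
  have hcovt : ∀ x < 512, CovC (grid ++ Q) x ↔ fd x &&& Pc = 0 := by
    intro x hx
    rw [and_eq_zero_iff]
    constructor
    · intro h i h1 h2
      obtain ⟨hi, hPi⟩ := (hPcb i).1 h2
      obtain ⟨h3, h4⟩ := (tab_bits x hx i hi).1 h1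
      obtain ⟨t, ht, h5, h6⟩ := h i h3
      rcases List.mem_append.1 ht with ht | ht
      · exact h4 ⟨t, ht, h5, h6⟩
      · obtain ⟨j, hj, rfl⟩ := hq1 t ht
        rw [Nat.testBit_two_pow] at h6
        have hij : j = i := by simpa using h6
        subst hij
        have := (hq2 j hj).2 ht
        rw [hPi] at this
        exact absurd this (by simp)
    · intro h i hi
      have hi9 := lt512_bit hx hi
      by_cases hg : ∃ t ∈ grid, t &&& x = t ∧ t.testBit i = true
      · obtain ⟨t, ht, h1⟩ := hg
        exact ⟨t, List.mem_append_left _ ht, h1⟩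
      · have h1 := (tab_bits x hx i hi9).2 ⟨hi, hg⟩
        have h2 : P.testBit i = true := by
          by_contra hc
          exact h i h1 ((hPcb i).2 ⟨hi9, by simpa using hc⟩)
        refine ⟨2 ^ i, List.mem_append_right _ ((hq2 i hi9).1 h2), ?_, Nat.testBit_two_pow_self⟩
        rw [and_eq_iff]
        intro j hj
        rw [Nat.testBit_two_pow] at hj
        have : i = j := by simpa using hj
        subst this
        exact hi
  have hsubP : ∀ x, x &&& P = x ↔ ∀ i, x.testBit i = true → P.testBit i = true :=
    fun x => and_eq_iff x P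
  -- sets inside `P` are covered
  have hcovP : ∀ S, S &&& P = S → CovC (grid ++ Q) S := by
    intro S hS i hi
    have h1 := (hsubP S).1 hS i hi
    have hi9 := lt512_bit hP h1
    refine ⟨2 ^ i, List.mem_append_right _ ((hq2 i hi9).1 h1), ?_, Nat.testBit_two_pow_self⟩
    rw [and_eq_iff]
    intro j hj
    rw [Nat.testBit_two_pow] at hj
    have : i = j := by simpa using hj
    subst this
    exact hi
  have hQt : ∀ t ∈ Q, ∀ x, t &&& x = t ↔ ∃ i < 9, t = 2 ^ i ∧ x.testBit i = true := by
    intro t ht x
    obtain ⟨i, hi, rfl⟩ := hq1 t ht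
    rw [and_eq_iff]
    constructor
    · intro h
      exact ⟨i, hi, rfl, h i Nat.testBit_two_pow_self⟩
    · rintro ⟨j, hj, h1, h2⟩ m hm
      rw [h1, Nat.testBit_two_pow] at hm
      have : j = m := by simpa using hm
      subst this
      exact h2
  set U := X.filter (fun S => S &&& P = S) with hU
  have hmap : ∀ x ∈ X, x &&& P ∈ U := by
    intro x hx
    have h1 : (x &&& P) &&& P = x &&& P := by rw [Nat.and_assoc, Nat.and_self]
    refine mem_filter.2 ⟨hcl x hx _ ?_ (hcovP _ h1) ?_, h1⟩
    · exact lt_of_le_of_lt Nat.and_le_right hP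
    · intro t ht h2
      obtain ⟨i, hi, rfl, h3⟩ := (hQt t ht x).1 h2
      refine (hQt _ ht _).2 ⟨i, hi, rfl, ?_⟩
      rw [Nat.testBit_and, h3, (hq2 i hi).2 ht]; rfl
  have hUcl : ∀ S ∈ U, ∀ p ∈ Q, p &&& S = 0 → S ||| p ∈ U := by
    intro S hS p hp _
    obtain ⟨h1, h2⟩ := mem_filter.1 hS
    obtain ⟨i, hi, rfl⟩ := hq1 p hp
    have h3 : (S ||| 2 ^ i) &&& P = S ||| 2 ^ i := by
      rw [hsubP]
      intro j hj
      rw [Nat.testBit_or, Bool.or_eq_true, Nat.testBit_two_pow] at hj
      rcases hj with hj | hj
      · exact (hsubP S).1 h2 j hj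
      · have : i = j := by simpa using hj
        subst this
        exact (hq2 i hi).2 hp
    refine mem_filter.2 ⟨hcl S h1 _ ?_ (hcovP _ h3) ?_, h3⟩
    · rw [← h3]
      exact lt_of_le_of_lt Nat.and_le_right hP
    · intro t ht h4
      obtain ⟨j, hj, rfl, h5⟩ := (hQt t ht S).1 h4
      refine (hQt _ ht _).2 ⟨j, hj, rfl, ?_⟩
      rw [Nat.testBit_or, h5]; rfl
  -- class sums
  have hclass : ∀ S ∈ U, ∑ x ∈ X.filter (fun x => x &&& P = S), wt 9 (fun _ => 1) x =
      9 * (((ysOf P).toFinset.filter (fun y => fd (S ||| y) &&& Pc = 0)).card : ℤ) -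
      ((∑ y ∈ (ysOf P).toFinset.filter (fun y => fd (S ||| y) &&& Pc = 0),
        2 * (fd (S ||| y) / 512) : ℕ) : ℤ) := by
    intro S hS
    obtain ⟨hSX, hSP⟩ := mem_filter.1 hS
    have hS512 := hX S hSX
    have hSb := (hsubP S).1 hSP
    have hset : X.filter (fun x => x &&& P = S) =
        ((ysOf P).toFinset.filter (fun y => fd (S ||| y) &&& Pc = 0)).image (fun y => S ||| y) := by
      ext x
      rw [mem_filter, mem_image]
      constructor
      · rintro ⟨hx, hxP⟩
        have hx512 := hX x hx
        have hrec : S ||| (x &&& Pc) = x := by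
          apply Nat.eq_of_testBit_eq
          intro i
          rw [Nat.testBit_or, Nat.testBit_and, ← hxP, Nat.testBit_and]
          cases hxi : x.testBit i
          · rfl
          · have hi9 := lt512_bit hx512 hxi
            cases hPi : P.testBit i
            · have := (hPcb i).2 ⟨hi9, hPi⟩
              rw [this]; rfl
            · rfl
        refine ⟨x &&& Pc, mem_filter.2 ⟨?_, ?_⟩, hrec⟩
        · rw [List.mem_toFinset, mem_ysOf]
          refine ⟨lt_of_le_of_lt Nat.and_le_left hx512, ?_⟩
          rw [and_eq_zero_iff]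
          intro i h1 h2
          rw [Nat.testBit_and, Bool.and_eq_true] at h1
          have := ((hPcb i).1 h1.2).2
          rw [h2] at this
          exact absurd this (by simp)
        · rw [hrec]
          exact (hcovt x hx512).1 (hcov x hx)
      · rintro ⟨y, hy, rfl⟩
        obtain ⟨h1, h2⟩ := mem_filter.1 hy
        rw [List.mem_toFinset, mem_ysOf, and_eq_zero_iff] at h1
        obtain ⟨hy512, hyP⟩ := h1
        have hlt : S ||| y < 512 := Nat.or_lt_two_pow (n := 9) hS512 hy512
        have hxP : (S ||| y) &&& P = S := by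
          apply Nat.eq_of_testBit_eq
          intro i
          rw [Nat.testBit_and, Nat.testBit_or]
          cases hSi : S.testBit i
          · cases hyi : y.testBit i
            · rfl
            · cases hPi : P.testBit i
              · rfl
              · exact (hyP i hyi hPi).elim
          · rw [hSb i hSi]; rfl
        refine ⟨hcl S hSX _ hlt ((hcovt _ hlt).2 h2) ?_, hxP⟩
        intro t ht h4
        obtain ⟨j, hj, rfl, h5⟩ := (hQt t ht S).1 h4
        refine (hQt _ ht _).2 ⟨j, hj, rfl, ?_⟩
        rw [Nat.testBit_or, h5]; rfl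
    rw [hset, Finset.sum_image]
    · have h1 : ∀ y ∈ (ysOf P).toFinset.filter (fun y => fd (S ||| y) &&& Pc = 0),
          wt 9 (fun _ => 1) (S ||| y) = 9 - ((2 * (fd (S ||| y) / 512) : ℕ) : ℤ) := by
        intro y hy
        have hy' := (mem_filter.1 hy).1
        rw [List.mem_toFinset, mem_ysOf] at hy'
        rw [tab_wt _ (Nat.or_lt_two_pow (n := 9) hS512 hy'.1)]
        push_cast
        ring
      rw [Finset.sum_congr rfl h1, Finset.sum_sub_distrib]
      push_cast
      rw [Finset.sum_const, nsmul_eq_mul]
      ring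
    · intro y hy y' hy' he
      have hr : ∀ z ∈ (ysOf P).toFinset.filter (fun y => fd (S ||| y) &&& Pc = 0),
          (S ||| z) &&& Pc = z := by
        intro z hz
        have hz' := (mem_filter.1 hz).1
        rw [List.mem_toFinset, mem_ysOf, and_eq_zero_iff] at hz'
        apply Nat.eq_of_testBit_eq
        intro i
        rw [Nat.testBit_and, Nat.testBit_or]
        cases hzi : z.testBit i
        · cases hSi : S.testBit i
          · rfl
          · cases hc : Pc.testBit i
            · rfl
            · have := ((hPcb i).1 hc).2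
              rw [hSb i hSi] at this
              exact absurd this (by simp)
        · have hi9 := lt512_bit hz'.1 hzi
          have hPi : P.testBit i = false := by
            cases hc : P.testBit i
            · rfl
            · exact (hz'.2 i hzi hc).elim
          rw [(hPcb i).2 ⟨hi9, hPi⟩, Bool.or_true, Bool.and_true]
      have he' : S ||| y = S ||| y' := he
      rw [← hr y hy, ← hr y' hy', he']
  -- the inequality for a class
  have hineq : ∀ S ∈ U, 60 * (∑ x ∈ X.filter (fun x => x &&& P = S), wt 9 (fun _ => 1) x) ≤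
      ((miss S Q * getA A S : ℕ) : ℤ) - (inn A S Q : ℤ) := by
    intro S hS
    obtain ⟨hSX, hSP⟩ := mem_filter.1 hS
    have hSmem : S ∈ ysOf Pc := by
      rw [mem_ysOf, and_eq_zero_iff]
      refine ⟨hX S hSX, fun i h1 h2 => ?_⟩
      have := ((hPcb i).1 h2).2
      rw [(hsubP S).1 hSP i h1] at this
      exact absurd this (by simp)
    have h1 : 60 * (sumW Pc S (ysOf P) % 8192) + inn A S Q ≤
        60 * (sumW Pc S (ysOf P) / 8192) + miss S Q * getA A S := by
      have h2 : Nat.ble (60 * (sumW Pc S (ysOf P) % 8192) + inn A S Q)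
        (60 * (sumW Pc S (ysOf P) / 8192) + miss S Q * getA A S) = true := hallS S hSmem
      exact Nat.le_of_ble_eq_true h2
    rw [hclass S hS]
    have h3 := sumW_eq Pc S (ysOf P) (ysOf_nodup P)
    have h4 : ((ysOf P).toFinset.filter (fun y => fd (S ||| y) &&& Pc = 0)).card ≤ 512 := by
      have : (ysOf P).toFinset.filter (fun y => fd (S ||| y) &&& Pc = 0) ⊆ range 512 := by
        intro y hy
        have hy' := (mem_filter.1 hy).1
        rw [List.mem_toFinset, mem_ysOf] at hy'
        exact mem_range.2 hy'.1
      have := Finset.card_le_card this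
      rwa [card_range] at this
    set cN := ((ysOf P).toFinset.filter (fun y => fd (S ||| y) &&& Pc = 0)).card
    set sN := ∑ y ∈ (ysOf P).toFinset.filter (fun y => fd (S ||| y) &&& Pc = 0),
        2 * (fd (S ||| y) / 512)
    omega
  have hflow := flow_list (getA A) U Q (fun p hp => by
    obtain ⟨i, _, h⟩ := hq1 p hp
    exact ⟨i, h⟩) hUcl
  have hflow' : ((∑ S ∈ U, miss S Q * getA A S : ℕ) : ℤ) ≤ ((∑ S ∈ U, inn A S Q : ℕ) : ℤ) := by
    exact_mod_cast hflow
  rw [← Finset.sum_fiberwise_of_maps_to (s := X) (t := U) (g := fun x => x &&& P) hmap]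
  have h5 := Finset.sum_le_sum hineq
  rw [← Finset.mul_sum, Finset.sum_sub_distrib] at h5
  push_cast at h5 hflow'
  linarith

end Pool.Agent.V11304.UC
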