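import Mathlib
import Pool.Agent.V11304.UC.Check9

/-! The kernel computation for the 3x3 grid. -/

set_option autoImplicit false
set_option maxRecDepth 100000

namespace Pool.Agent.V11304.UC

theorem grid_check : ∀ Q ∈ subs bits9, checkQ Q = true := by
  have h : (subs bits9).all checkQ = true := by decide +kernel
  exact List.all_eq_true.1 h

end Pool.Agent.V11304.UC
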