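import Mathlib
import Pool.Agent.V11304.UC.Data

/-!
The local inequality for the small windows, from the flow certificates.
-/

set_option autoImplicit false
set_option linter.unusedSectionVars false
set_option linter.unusedVariables false

namespace Pool.Agent.V11304.UC

open Finset

/-- union of the members of `L` inside `x` -/
def clw (L : List ℕ) (x : ℕ) : ℕ :=
  @List.rec ℕ (fun _ => ℕ) 0 (fun t _ ih => bif Nat.beq (Nat.land t x) t then Nat.lor t ih else ih) L

def covb (L : List ℕ) (x : ℕ) : Bool := Nat.beq (clw L x) x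

theorem clw_bit (L : List ℕ) (x i : ℕ) :
    (clw L x).testBit i = true ↔ ∃ t ∈ L, t &&& x = t ∧ t.testBit i = true := by
  induction L with
  | nil => simp [clw]
  | cons t L ih =>
    have e : clw (t :: L) x = bif Nat.beq (Nat.land t x) t then t ||| clw L x else clw L x := rfl
    rw [e]
    by_cases h : t &&& x = t
    · have h' : Nat.beq (Nat.land t x) t = true := by rw [Nat.beq_eq]; exact h
      rw [h', cond_true, Nat.testBit_or, Bool.or_eq_true, ih]
      constructor
      · rintro (h1 | ⟨s, hs, h1⟩)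
        · exact ⟨t, List.mem_cons_self, h, h1⟩
        · exact ⟨s, List.mem_cons_of_mem _ hs, h1⟩
      · rintro ⟨s, hs, h1, h2⟩
        rcases List.mem_cons.1 hs with rfl | hs
        · exact Or.inl h2
        · exact Or.inr ⟨s, hs, h1, h2⟩
    · have h' : Nat.beq (Nat.land t x) t = false := by
        rw [← Bool.not_eq_true, Nat.beq_eq]; exact h
      rw [h', cond_false, ih]
      constructor
      · rintro ⟨s, hs, h1⟩
        exact ⟨s, List.mem_cons_of_mem _ hs, h1⟩
      · rintro ⟨s, hs, h1, h2⟩
        rcases List.mem_cons.1 hs with rfl | hs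
        · exact absurd h1 h
        · exact ⟨s, hs, h1, h2⟩

theorem covb_iff (L : List ℕ) (x : ℕ) : covb L x = true ↔ CovC L x := by
  unfold covb
  rw [Nat.beq_eq]
  constructor
  · intro h i hi
    rw [← h] at hi
    exact (clw_bit L x i).1 hi
  · intro h
    apply Nat.eq_of_testBit_eq
    intro i
    rw [Bool.eq_iff_iff, clw_bit]
    constructor
    · rintro ⟨t, ht, h1, h2⟩
      exact (and_eq_iff t x).1 h1 i h2
    · intro hi
      exact h i hi

def ex (e : ℕ) : ℕ := Nat.mod e 64
def ey (e : ℕ) : ℕ := Nat.mod (Nat.div e 64) 64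
def ea (e : ℕ) : ℕ := Nat.div e 4096

def inC (x : ℕ) (cert : List ℕ) : ℕ :=
  @List.rec ℕ (fun _ => ℕ) 0 (fun e _ s => bif Nat.beq (ey e) x then Nat.add (ea e) s else s) cert

def outC (x : ℕ) (cert : List ℕ) : ℕ :=
  @List.rec ℕ (fun _ => ℕ) 0 (fun e _ s => bif Nat.beq (ex e) x then Nat.add (ea e) s else s) cert

def wsum (cs : List ℕ) (x : ℕ) : ℕ :=
  (@List.rec ℕ (fun _ => ℕ → ℕ) (fun _ => 0)
    (fun c _ ih x => Nat.add (Nat.mul c (Nat.mod x 2)) (ih (Nat.div x 2))) cs) x

def checkOne (k wp : ℕ) (cs full Q cert : List ℕ) : Bool :=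
  cert.all (fun e => Nat.blt (ey e) (2 ^ k) && (covb (full ++ Q) (ey e) &&
    Q.all (fun t => !(Nat.beq (Nat.land t (ex e)) t) || Nat.beq (Nat.land t (ey e)) t))) &&
  (List.range (2 ^ k)).all (fun x => !(covb (full ++ Q) x) ||
    Nat.ble (wp + inC x cert) (2 * wsum cs x + outC x cert))

def checkAll (k wp : ℕ) (cs full : List ℕ) : List (List ℕ) → List (List ℕ) → Bool
  | [], _ => true
  | _ :: _, [] => false
  | Q :: Qs, c :: certs => checkOne k wp cs full Q c && checkAll k wp cs full Qs certs

theorem checkAll_iff {k wp : ℕ} {cs full : List ℕ} {Qs certs : List (List ℕ)}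
    (h : checkAll k wp cs full Qs certs = true) :
    ∀ Q ∈ Qs, ∃ c, checkOne k wp cs full Q c = true := by
  induction Qs generalizing certs with
  | nil => simp
  | cons Q Qs ih =>
    cases certs with
    | nil => simp [checkAll] at h
    | cons c certs =>
      rw [checkAll, Bool.and_eq_true] at h
      intro Q' hQ'
      rcases List.mem_cons.1 hQ' with rfl | h1
      · exact ⟨c, h.1⟩
      · exact ih h.2 Q' h1

theorem flow_cert (X : Finset ℕ) (cert : List ℕ) (h : ∀ e ∈ cert, ex e ∈ X → ey e ∈ X) :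
    ∑ x ∈ X, outC x cert ≤ ∑ x ∈ X, inC x cert := by
  induction cert with
  | nil => simp [outC, inC]
  | cons e cert ih =>
    have h1 := ih (fun e' he' => h e' (List.mem_cons_of_mem _ he'))
    have e1 : ∀ x, outC x (e :: cert) = (if ex e = x then ea e else 0) + outC x cert := by
      intro x
      show (bif Nat.beq (ex e) x then ea e + outC x cert else outC x cert) = _
      by_cases hx : ex e = x
      · have h' : Nat.beq (ex e) x = true := by rw [Nat.beq_eq]; exact hx
        rw [h', cond_true, if_pos hx]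
      · have h' : Nat.beq (ex e) x = false := by rw [← Bool.not_eq_true, Nat.beq_eq]; exact hx
        rw [h', cond_false, if_neg hx, zero_add]
    have e2 : ∀ x, inC x (e :: cert) = (if ey e = x then ea e else 0) + inC x cert := by
      intro x
      show (bif Nat.beq (ey e) x then ea e + inC x cert else inC x cert) = _
      by_cases hx : ey e = x
      · have h' : Nat.beq (ey e) x = true := by rw [Nat.beq_eq]; exact hx
        rw [h', cond_true, if_pos hx]
      · have h' : Nat.beq (ey e) x = false := by rw [← Bool.not_eq_true, Nat.beq_eq]; exact hx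
        rw [h', cond_false, if_neg hx, zero_add]
    rw [Finset.sum_congr rfl (fun x _ => e1 x), Finset.sum_congr rfl (fun x _ => e2 x),
      Finset.sum_add_distrib, Finset.sum_add_distrib, Finset.sum_ite_eq, Finset.sum_ite_eq]
    refine Nat.add_le_add ?_ h1
    by_cases hx : ex e ∈ X
    · rw [if_pos hx, if_pos (h e List.mem_cons_self hx)]
    · rw [if_neg hx]; exact Nat.zero_le _

theorem good_of_check {k wp : ℕ} {c : ℕ → ℕ} {cs full part : List ℕ} {certs : List (List ℕ)}
    (hw : ∀ x < 2 ^ k, wt k c x = (wp : ℤ) - 2 * (wsum cs x : ℤ))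
    (h : checkAll k wp cs full (subs part) certs = true) : Good k c full part := by
  intro Q hQ X hX hcov hcl
  obtain ⟨cert, hc⟩ := checkAll_iff h Q (mem_subs hQ)
  rw [checkOne, Bool.and_eq_true, List.all_eq_true, List.all_eq_true] at hc
  obtain ⟨h1, h2⟩ := hc
  have hflow := flow_cert X cert (by
    intro e he hx
    have h3 := h1 e he
    rw [Bool.and_eq_true, Bool.and_eq_true, List.all_eq_true] at h3
    obtain ⟨h4, h5, h6⟩ := h3
    rw [Nat.blt_eq] at h4
    refine hcl _ hx _ h4 ((covb_iff _ _).1 h5) ?_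
    intro t ht htx
    have h7 := h6 t ht
    rw [Bool.or_eq_true, Bool.not_eq_true', ← Bool.not_eq_true, Nat.beq_eq, Nat.beq_eq] at h7
    rcases h7 with h7 | h7
    · exact absurd htx h7
    · exact h7)
  have h3 : ∀ x ∈ X, wt k c x ≤ (outC x cert : ℤ) - (inC x cert : ℤ) := by
    intro x hx
    have h4 := h2 x (List.mem_range.2 (hX x hx))
    rw [(covb_iff _ _).2 (hcov x hx), Bool.not_true, Bool.false_or] at h4
    have h5 := Nat.le_of_ble_eq_true h4
    rw [hw x (hX x hx)]
    omega
  refine (Finset.sum_le_sum h3).trans ?_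
  rw [Finset.sum_sub_distrib]
  have h4 : ((∑ x ∈ X, outC x cert : ℕ) : ℤ) ≤ ((∑ x ∈ X, inC x cert : ℕ) : ℤ) := by
    exact_mod_cast hflow
  push_cast at h4
  linarith

/-- weights from a list -/
def cw (cs : List ℕ) (i : ℕ) : ℕ := cs.getD i 0

theorem good_ap6 : Good 5 (cw [2, 3, 4, 3, 2]) [7, 14, 28] [1, 2, 4, 8, 16, 3, 24, 17] := by
  apply good_of_check (wp := 14) (cs := [2, 3, 4, 3, 2]) (certs := cert_ap6)
  · decide +kernel
  · decide +kernel

theorem good_ap5 : Good 5 (cw [1, 1, 1, 1, 1]) [7, 14, 28, 25, 19] [1, 2, 4, 8, 16] := by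
  apply good_of_check (wp := 5) (cs := [1, 1, 1, 1, 1]) (certs := cert_ap5)
  · decide +kernel
  · decide +kernel

theorem good_ap4 : Good 4 (cw [1, 1, 1, 1]) [7, 14, 13, 11] [1, 2, 4, 8] := by
  apply good_of_check (wp := 4) (cs := [1, 1, 1, 1]) (certs := cert_ap4)
  · decide +kernel
  · decide +kernel

theorem good_inv : Good 6 (cw [1, 1, 1, 1, 0, 0]) [7, 11, 28, 44] [1, 2, 4, 8, 16, 32, 48] := by
  apply good_of_check (wp := 4) (cs := [1, 1, 1, 1, 0, 0]) (certs := cert_inv)
  · decide +kernel
  · decide +kernel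

theorem good_inv3 : Good 6 (cw [1, 1, 1, 1, 0, 0]) [7, 11, 28, 44, 49, 50]
    [1, 2, 4, 8, 16, 32] := by
  apply good_of_check (wp := 4) (cs := [1, 1, 1, 1, 0, 0]) (certs := cert_inv3)
  · decide +kernel
  · decide +kernel

end Pool.Agent.V11304.UC
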