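import Mathlib
import Pool.Agent.V11304.UC.Small

/-!
Tiles on the torus: windows in a row and the 3x3 grid.
-/

set_option autoImplicit false
set_option linter.unusedSectionVars false
set_option linter.unusedVariables false

namespace Pool.Agent.V11304.UC

open Finset

variable {n : ℕ} [NeZero n]

/-- horizontal tile -/
def HT (R : Finset (ZMod n)) (v : ZMod n × ZMod n) : Finset (ZMod n × ZMod n) :=
  univ.filter (fun p => p.1 - v.1 ∈ R ∧ p.2 = v.2)

/-- vertical tile -/
def VT (R : Finset (ZMod n)) (v : ZMod n × ZMod n) : Finset (ZMod n × ZMod n) :=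
  univ.filter (fun p => p.1 = v.1 ∧ p.2 - v.2 ∈ R)

def TT (R : Finset (ZMod n)) : Finset (Finset (ZMod n × ZMod n)) :=
  univ.image (HT R) ∪ univ.image (VT R)

open Classical in
/-- all unions of tiles -/
noncomputable def FF (R : Finset (ZMod n)) : Finset (Finset (ZMod n × ZMod n)) :=
  univ.filter (fun A => Cov (TT R) A)

theorem mem_FF (R : Finset (ZMod n)) (A) : A ∈ FF R ↔ Cov (TT R) A := by
  classical
  unfold FF
  rw [mem_filter]
  exact ⟨fun h => h.2, fun h => ⟨mem_univ _, h⟩⟩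

noncomputable def deg (R : Finset (ZMod n)) (p : ZMod n × ZMod n) : ℕ :=
  ((FF R).filter (fun A => p ∈ A)).card

theorem mem_HT {R : Finset (ZMod n)} {v p : ZMod n × ZMod n} :
    p ∈ HT R v ↔ p.1 - v.1 ∈ R ∧ p.2 = v.2 := by simp [HT]

theorem mem_VT {R : Finset (ZMod n)} {v p : ZMod n × ZMod n} :
    p ∈ VT R v ↔ p.1 = v.1 ∧ p.2 - v.2 ∈ R := by simp [VT]

theorem image_HT (R : Finset (ZMod n)) (v w : ZMod n × ZMod n) :
    (HT R v).image (fun p => p + w) = HT R (v + w) := by
  ext p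
  rw [mem_image, mem_HT]
  constructor
  · rintro ⟨q, hq, rfl⟩
    rw [mem_HT] at hq
    refine ⟨?_, ?_⟩
    · rw [Prod.fst_add, Prod.fst_add, add_sub_add_right_eq_sub]; exact hq.1
    · rw [Prod.snd_add, Prod.snd_add, hq.2]
  · rintro ⟨h1, h2⟩
    refine ⟨p - w, mem_HT.2 ⟨?_, ?_⟩, sub_add_cancel p w⟩
    · rw [Prod.fst_add] at h1
      rw [Prod.fst_sub]
      rwa [sub_sub, add_comm w.1]
    · rw [Prod.snd_add] at h2
      rw [Prod.snd_sub, h2, add_sub_cancel_right]

theorem image_VT (R : Finset (ZMod n)) (v w : ZMod n × ZMod n) :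
    (VT R v).image (fun p => p + w) = VT R (v + w) := by
  ext p
  rw [mem_image, mem_VT]
  constructor
  · rintro ⟨q, hq, rfl⟩
    rw [mem_VT] at hq
    refine ⟨?_, ?_⟩
    · rw [Prod.fst_add, Prod.fst_add, hq.1]
    · rw [Prod.snd_add, Prod.snd_add, add_sub_add_right_eq_sub]; exact hq.2
  · rintro ⟨h1, h2⟩
    refine ⟨p - w, mem_VT.2 ⟨?_, ?_⟩, sub_add_cancel p w⟩
    · rw [Prod.fst_add] at h1
      rw [Prod.fst_sub, h1, add_sub_cancel_right]
    · rw [Prod.snd_add] at h2
      rw [Prod.snd_sub]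
      rwa [sub_sub, add_comm w.2]

theorem cov_image {R : Finset (ZMod n)} {A : Finset (ZMod n × ZMod n)} (h : Cov (TT R) A)
    (w : ZMod n × ZMod n) : Cov (TT R) (A.image (fun p => p + w)) := by
  intro p hp
  obtain ⟨q, hq, rfl⟩ := mem_image.1 hp
  obtain ⟨t, ht, hqt, hts⟩ := h q hq
  refine ⟨t.image (fun p => p + w), ?_, mem_image_of_mem _ hqt, image_subset_image hts⟩
  rcases mem_union.1 ht with ht | ht
  · obtain ⟨v, -, rfl⟩ := mem_image.1 ht
    exact mem_union_left _ (mem_image.2 ⟨v + w, mem_univ _, (image_HT R v w).symm⟩)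
  · obtain ⟨v, -, rfl⟩ := mem_image.1 ht
    exact mem_union_right _ (mem_image.2 ⟨v + w, mem_univ _, (image_VT R v w).symm⟩)

theorem deg_le (R : Finset (ZMod n)) (p q : ZMod n × ZMod n) : deg R p ≤ deg R q := by
  unfold deg
  have hinj : Function.Injective (fun A : Finset (ZMod n × ZMod n) =>
      A.image (fun r => r + (q - p))) :=
    Finset.image_injective (add_left_injective (q - p))
  rw [← Finset.card_image_of_injective _ hinj]
  apply Finset.card_le_card
  intro B hB
  obtain ⟨A, hA, rfl⟩ := mem_image.1 hB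
  obtain ⟨h1, h2⟩ := mem_filter.1 hA
  refine mem_filter.2 ⟨(mem_FF R _).2 (cov_image ((mem_FF R A).1 h1) _), ?_⟩
  exact mem_image.2 ⟨p, h2, by abel⟩

theorem deg_eq (R : Finset (ZMod n)) (p q : ZMod n × ZMod n) : deg R p = deg R q :=
  le_antisymm (deg_le R p q) (deg_le R q p)

/-- a window gives the result -/
theorem of_window (R : Finset (ZMod n)) {k : ℕ} {c : ℕ → ℕ} {full part : List ℕ}
    (hgood : Good k c full part) (g : ℕ → ZMod n × ZMod n)
    (hg : ∀ i < k, ∀ j < k, g i = g j → i = j)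
    (H1 : ∀ t ∈ full, ∃ A ∈ TT R, ∀ p, p ∈ A ↔ ∃ i < k, t.testBit i = true ∧ g i = p)
    (H2 : ∀ A ∈ TT R, ∃ t : ℕ, (∀ i < k, t.testBit i = true ↔ g i ∈ A) ∧
      (∀ i, k ≤ i → t.testBit i = false) ∧
      (t = 0 ∨ t ∈ part ∨ (t ∈ full ∧ ∀ p ∈ A, ∃ i < k, g i = p)))
    (hc : 0 < ∑ i ∈ range k, c i) (p : ZMod n × ZMod n) : (FF R).card ≤ 2 * deg R p := by
  classical
  have h1 := window (TT R) hgood g hg H1 H2 (FF R) (mem_FF R)
  have h2 : ∀ i ∈ range k, (c i : ℤ) * (((FF R).card : ℤ) -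
      2 * (((FF R).filter (fun A => g i ∈ A)).card : ℤ)) =
      (c i : ℤ) * (((FF R).card : ℤ) - 2 * (deg R p : ℤ)) := by
    intro i _
    have h3 : ((FF R).filter (fun A => g i ∈ A)).card = deg R p := by
      rw [← deg_eq R (g i) p]
      unfold deg
      congr 1
    rw [h3]
  rw [Finset.sum_congr rfl h2, ← Finset.sum_mul] at h1
  by_contra hcon
  push Not at hcon
  have h4 : (0 : ℤ) < ∑ i ∈ range k, (c i : ℤ) := by exact_mod_cast hc
  have h5 : (0 : ℤ) < ((FF R).card : ℤ) - 2 * (deg R p : ℤ) := by omega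
  have := mul_pos h4 h5
  omega

/-- a window in a row -/
theorem of_row (R : Finset (ZMod n)) {k : ℕ} {c : ℕ → ℕ} {full part : List ℕ}
    (hgood : Good k c full part) (w : ℕ → ZMod n)
    (hw : ∀ i < k, ∀ j < k, w i = w j → i = j)
    (K1 : ∀ t ∈ full, ∃ s : ZMod n, ∀ z, z - s ∈ R ↔ ∃ i < k, t.testBit i = true ∧ w i = z)
    (K2 : ∀ s : ZMod n, ∃ t : ℕ, (∀ i < k, t.testBit i = true ↔ w i - s ∈ R) ∧
      (∀ i, k ≤ i → t.testBit i = false) ∧
      (t = 0 ∨ t ∈ part ∨ (t ∈ full ∧ ∀ z, z - s ∈ R → ∃ i < k, w i = z)))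
    (K3 : ∀ i < k, 2 ^ i ∈ part)
    (hc : 0 < ∑ i ∈ range k, c i) (p : ZMod n × ZMod n) : (FF R).card ≤ 2 * deg R p := by
  refine of_window R hgood (fun i => (w i, 0)) ?_ ?_ ?_ hc p
  · intro i hi j hj h
    exact hw i hi j hj (congrArg Prod.fst h)
  · intro t ht
    obtain ⟨s, hs⟩ := K1 t ht
    refine ⟨HT R (s, 0), mem_union_left _ (mem_image_of_mem _ (mem_univ _)), ?_⟩
    rintro ⟨p1, p2⟩
    rw [mem_HT]
    constructor
    · rintro ⟨h1, h2⟩
      obtain ⟨i, hi, h3, h4⟩ := (hs p1).1 h1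
      have h2' : p2 = 0 := h2
      exact ⟨i, hi, h3, by rw [h4, h2']⟩
    · rintro ⟨i, hi, h3, h4⟩
      have h5 := congrArg Prod.fst h4
      have h6 := congrArg Prod.snd h4
      exact ⟨(hs p1).2 ⟨i, hi, h3, h5⟩, h6.symm⟩
  · intro A hA
    rcases mem_union.1 hA with hA | hA
    · obtain ⟨⟨s, y⟩, -, rfl⟩ := mem_image.1 hA
      by_cases hy : y = 0
      · subst hy
        obtain ⟨t, h1, h2, h3⟩ := K2 s
        refine ⟨t, ?_, h2, ?_⟩
        · intro i hi
          rw [h1 i hi, mem_HT]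
          exact ⟨fun h => ⟨h, rfl⟩, fun h => h.1⟩
        · rcases h3 with h3 | h3 | ⟨h3, h4⟩
          · exact Or.inl h3
          · exact Or.inr (Or.inl h3)
          · refine Or.inr (Or.inr ⟨h3, ?_⟩)
            rintro ⟨p1, p2⟩ hp
            rw [mem_HT] at hp
            obtain ⟨i, hi, h5⟩ := h4 p1 hp.1
            have h6 : p2 = 0 := hp.2
            exact ⟨i, hi, by rw [h5, h6]⟩
      · refine ⟨0, ?_, fun i _ => Nat.zero_testBit i, Or.inl rfl⟩
        intro i _
        rw [Nat.zero_testBit, mem_HT]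
        constructor
        · intro h; exact absurd h (by simp)
        · intro h; exact absurd h.2.symm hy
    · obtain ⟨⟨x, y⟩, -, rfl⟩ := mem_image.1 hA
      by_cases hy : (0 : ZMod n) - y ∈ R ∧ ∃ i < k, w i = x
      · obtain ⟨h1, i, hi, h2⟩ := hy
        refine ⟨2 ^ i, ?_, ?_, Or.inr (Or.inl (K3 i hi))⟩
        · intro j hj
          rw [Nat.testBit_two_pow, mem_VT]
          constructor
          · intro h
            have : i = j := by simpa using h
            subst this
            exact ⟨h2, h1⟩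
          · intro h
            have h3 : w j = x := h.1
            have := hw i hi j hj (h2.trans h3.symm)
            simp [this]
        · intro j hj
          rw [Nat.testBit_two_pow]
          simp
          omega
      · refine ⟨0, ?_, fun i _ => Nat.zero_testBit i, Or.inl rfl⟩
        intro i hi
        rw [Nat.zero_testBit, mem_VT]
        constructor
        · intro h; exact absurd h (by simp)
        · intro h; exact absurd ⟨h.2, i, hi, h.1⟩ hy

/-- a window in a row with computable indices -/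
theorem of_index (R : Finset (ZMod n)) {k : ℕ} {c : ℕ → ℕ} {full part : List ℕ}
    (hgood : Good k c full part) (K3 : ∀ i < k, 2 ^ i ∈ part) (hc : 0 < ∑ i ∈ range k, c i)
    {ι : Type} (el : ι → ZMod n) (x0 : ZMod n) (wi : ℕ → ι) (sh : ι → List ι) (cand : List ι)
    (eqb : ι → ι → Bool)
    (heq : ∀ i < k, ∀ p ∈ cand, ∀ q ∈ sh p, (el (wi i) = el q ↔ eqb (wi i) q = true))
    (hinj : ∀ i < k, ∀ j < k, el (wi i) = el (wi j) → i = j)
    (hcand : ∀ s : ZMod n, ∀ i < k, el (wi i) - s ∈ R → ∃ p ∈ cand, s + x0 = el p)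
    (hsh : ∀ p ∈ cand, ∀ z, z - (el p - x0) ∈ R ↔ ∃ q ∈ sh p, z = el q)
    (hdec : ∀ p ∈ cand, ∃ t : ℕ, (∀ i < k, t.testBit i = (sh p).any (fun q => eqb (wi i) q)) ∧
      t < 2 ^ k ∧ (t = 0 ∨ t ∈ part ∨
        (t ∈ full ∧ ∀ q ∈ sh p, ∃ i < k, eqb (wi i) q = true)))
    (hfull : ∀ t ∈ full, ∃ p ∈ cand, (∀ i < k, t.testBit i = (sh p).any (fun q => eqb (wi i) q)) ∧
      ∀ q ∈ sh p, ∃ i < k, eqb (wi i) q = true)
    (p : ZMod n × ZMod n) : (FF R).card ≤ 2 * deg R p := by
  refine of_row R hgood (fun i => el (wi i)) hinj ?_ ?_ K3 hc p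
  · intro t ht
    obtain ⟨p, hp, h1, h2⟩ := hfull t ht
    refine ⟨el p - x0, ?_⟩
    intro z
    rw [hsh p hp z]
    constructor
    · rintro ⟨q, hq, rfl⟩
      obtain ⟨i, hi, h3⟩ := h2 q hq
      refine ⟨i, hi, ?_, (heq i hi p hp q hq).2 h3⟩
      rw [h1 i hi, List.any_eq_true]
      exact ⟨q, hq, h3⟩
    · rintro ⟨i, hi, h3, rfl⟩
      rw [h1 i hi, List.any_eq_true] at h3
      obtain ⟨q, hq, h4⟩ := h3
      exact ⟨q, hq, (heq i hi p hp q hq).2 h4⟩
  · intro s
    by_cases hs : ∃ p ∈ cand, s + x0 = el p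
    · obtain ⟨p, hp, hsp⟩ := hs
      have hs' : s = el p - x0 := by rw [← hsp]; abel
      obtain ⟨t, h1, h2, h3⟩ := hdec p hp
      refine ⟨t, ?_, ?_, ?_⟩
      · intro i hi
        rw [h1 i hi, List.any_eq_true, hs', hsh p hp]
        constructor
        · rintro ⟨q, hq, h4⟩
          exact ⟨q, hq, (heq i hi p hp q hq).2 h4⟩
        · rintro ⟨q, hq, h4⟩
          exact ⟨q, hq, (heq i hi p hp q hq).1 h4⟩
      · intro i hi
        exact Nat.testBit_lt_two_pow (lt_of_lt_of_le h2 (Nat.pow_le_pow_right (by norm_num) hi))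
      · rcases h3 with h3 | h3 | ⟨h3, h4⟩
        · exact Or.inl h3
        · exact Or.inr (Or.inl h3)
        · refine Or.inr (Or.inr ⟨h3, ?_⟩)
          intro z hz
          rw [hs', hsh p hp] at hz
          obtain ⟨q, hq, rfl⟩ := hz
          obtain ⟨i, hi, h5⟩ := h4 q hq
          exact ⟨i, hi, (heq i hi p hp q hq).2 h5⟩
    · refine ⟨0, ?_, fun i _ => Nat.zero_testBit i, Or.inl rfl⟩
      intro i hi
      rw [Nat.zero_testBit]
      constructor
      · intro h; exact absurd h (by simp)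
      · intro h; exact absurd (hcand s i hi h) hs

/-- the 3x3 window -/
theorem of_grid (hall : ∀ Q ∈ subs bits9, checkQ Q = true) (R : Finset (ZMod n))
    (r : ℕ → ZMod n) (hr : ∀ i < 3, ∀ j < 3, r i = r j → i = j)
    (hR : ∀ z, z ∈ R ↔ ∃ i < 3, r i = z)
    (hgen : ∀ s, (∀ z ∈ R, z - s ∈ R) ∨ (∀ z ∈ R, ∀ z' ∈ R, z - s ∈ R → z' - s ∈ R → z = z'))
    (p : ZMod n × ZMod n) : (FF R).card ≤ 2 * deg R p := by
  classical
  have hgood := good9 hall
  -- translates: full or at most one
  have hback : ∀ s, (∀ z ∈ R, z - s ∈ R) → ∀ z, z - s ∈ R → z ∈ R := by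
    intro s hs z hz
    have h1 : (R.image (fun z => z - s)) = R := by
      apply Finset.eq_of_subset_of_card_le
      · intro y hy
        obtain ⟨z, hz, rfl⟩ := mem_image.1 hy
        exact hs z hz
      · rw [Finset.card_image_of_injective _ (sub_left_injective (b := s))]
    rw [← h1] at hz
    obtain ⟨y, hy, hyz⟩ := mem_image.1 hz
    have : y = z := sub_left_injective hyz
    rwa [← this]
  -- the trace of a translate on `R`
  have htrace : ∀ s, (∀ i < 3, r i - s ∈ R) ∨ (∀ i < 3, r i - s ∉ R) ∨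
      ∃ i0 < 3, ∀ i < 3, (r i - s ∈ R ↔ i = i0) := by
    intro s
    rcases hgen s with h | h
    · exact Or.inl fun i hi => h _ ((hR _).2 ⟨i, hi, rfl⟩)
    · by_cases h0 : ∃ i0 < 3, r i0 - s ∈ R
      · obtain ⟨i0, hi0, h1⟩ := h0
        refine Or.inr (Or.inr ⟨i0, hi0, fun i hi => ⟨fun h2 => ?_, fun h2 => h2 ▸ h1⟩⟩)
        exact hr i hi i0 hi0 (h _ ((hR _).2 ⟨i, hi, rfl⟩) _ ((hR _).2 ⟨i0, hi0, rfl⟩) h2 h1)
      · push Not at h0
        exact Or.inr (Or.inl h0)
  have hdm : ∀ i < 9, i / 3 < 3 ∧ i % 3 < 3 := fun i hi => ⟨by omega, Nat.mod_lt _ (by norm_num)⟩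
  have single_bit : ∀ m < 9, ∀ i, (2 ^ m : ℕ).testBit i = true ↔ i = m := by
    intro m _ i
    rw [Nat.testBit_two_pow]
    constructor
    · intro h
      have : m = i := by simpa using h
      exact this.symm
    · intro h; simp [h]
  have mem_bits : ∀ m < 9, (2 ^ m : ℕ) ∈ bits9 := by decide
  -- codes of rows and columns
  have hrow : ∀ a < 3, ∃ t ∈ grid, (∀ i < 9, t.testBit i = true ↔ i / 3 = a) ∧
      ∀ i, 9 ≤ i → t.testBit i = false := by
    intro a ha
    have h1 : ∀ a < 3, ∃ t ∈ grid, t < 512 ∧ ∀ i < 9, (t.testBit i = true ↔ i / 3 = a) := by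
      decide
    obtain ⟨t, h2, h3, h4⟩ := h1 a ha
    exact ⟨t, h2, h4, fun i hi => Nat.testBit_lt_two_pow (lt_of_lt_of_le h3
      (show 2 ^ 9 ≤ 2 ^ i from Nat.pow_le_pow_right (by norm_num) hi))⟩
  have hcol : ∀ a < 3, ∃ t ∈ grid, (∀ i < 9, t.testBit i = true ↔ i % 3 = a) ∧
      ∀ i, 9 ≤ i → t.testBit i = false := by
    intro a ha
    have h1 : ∀ a < 3, ∃ t ∈ grid, t < 512 ∧ ∀ i < 9, (t.testBit i = true ↔ i % 3 = a) := by
      decide
    obtain ⟨t, h2, h3, h4⟩ := h1 a ha
    exact ⟨t, h2, h4, fun i hi => Nat.testBit_lt_two_pow (lt_of_lt_of_le h3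
      (show 2 ^ 9 ≤ 2 ^ i from Nat.pow_le_pow_right (by norm_num) hi))⟩
  have hgrid : ∀ t ∈ grid, (∃ a < 3, ∀ i < 9, t.testBit i = true ↔ i / 3 = a) ∨
      (∃ a < 3, ∀ i < 9, t.testBit i = true ↔ i % 3 = a) := by
    decide
  refine of_window R hgood (fun i => (r (i % 3), r (i / 3))) ?_ ?_ ?_ (by decide) p
  · intro i hi j hj h
    have h1 := hr _ (hdm i hi).2 _ (hdm j hj).2 (congrArg Prod.fst h)
    have h2 := hr _ (hdm i hi).1 _ (hdm j hj).1 (congrArg Prod.snd h)
    omega
  · intro t ht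
    rcases hgrid t ht with ⟨a, ha, h1⟩ | ⟨a, ha, h1⟩
    · refine ⟨HT R (0, r a), mem_union_left _ (mem_image_of_mem _ (mem_univ _)), ?_⟩
      rintro ⟨p1, p2⟩
      rw [mem_HT]
      constructor
      · rintro ⟨h2, h3⟩
        have h2' : p1 ∈ R := by simpa using h2
        obtain ⟨b, hb, rfl⟩ := (hR p1).1 h2'
        refine ⟨3 * a + b, by omega, (h1 _ (by omega)).2 (by omega), ?_⟩
        have e1 : (3 * a + b) % 3 = b := by omega
        have e2 : (3 * a + b) / 3 = a := by omega
        have h3' : p2 = r a := h3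
        simp only [e1, e2, h3']
      · rintro ⟨i, hi, h2, h3⟩
        have h4 := (h1 i hi).1 h2
        have h5 := congrArg Prod.fst h3
        have h6 := congrArg Prod.snd h3
        simp only at h5 h6
        rw [← h5, ← h6, h4]
        refine ⟨?_, rfl⟩
        rw [sub_zero]
        exact (hR _).2 ⟨_, (hdm i hi).2, rfl⟩
    · refine ⟨VT R (r a, 0), mem_union_right _ (mem_image_of_mem _ (mem_univ _)), ?_⟩
      rintro ⟨p1, p2⟩
      rw [mem_VT]
      constructor
      · rintro ⟨h2, h3⟩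
        have h3' : p2 ∈ R := by simpa using h3
        obtain ⟨b, hb, rfl⟩ := (hR p2).1 h3'
        refine ⟨3 * b + a, by omega, (h1 _ (by omega)).2 (by omega), ?_⟩
        have e1 : (3 * b + a) % 3 = a := by omega
        have e2 : (3 * b + a) / 3 = b := by omega
        have h2' : p1 = r a := h2
        simp only [e1, e2, h2']
      · rintro ⟨i, hi, h2, h3⟩
        have h4 := (h1 i hi).1 h2
        have h5 := congrArg Prod.fst h3
        have h6 := congrArg Prod.snd h3
        simp only at h5 h6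
        rw [← h5, ← h6, h4]
        refine ⟨rfl, ?_⟩
        rw [sub_zero]
        exact (hR _).2 ⟨_, (hdm i hi).1, rfl⟩
  · intro A hA
    rcases mem_union.1 hA with hA | hA
    · obtain ⟨⟨s, y⟩, -, rfl⟩ := mem_image.1 hA
      by_cases hy : y ∈ R
      · obtain ⟨a, ha, rfl⟩ := (hR y).1 hy
        have hmem : ∀ i < 9, ((r (i % 3), r (i / 3)) ∈ HT R (s, r a) ↔
            r (i % 3) - s ∈ R ∧ i / 3 = a) := by
          intro i hi
          rw [mem_HT]
          constructor
          · rintro ⟨h1, h2⟩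
            exact ⟨h1, hr _ (hdm i hi).1 _ ha h2⟩
          · rintro ⟨h1, h2⟩
            exact ⟨h1, by rw [h2]⟩
        rcases htrace s with h1 | h1 | ⟨b, hb, h1⟩
        · obtain ⟨t, ht, h2, h3⟩ := hrow a ha
          refine ⟨t, ?_, h3, Or.inr (Or.inr ⟨ht, ?_⟩)⟩
          · intro i hi
            rw [h2 i hi, hmem i hi]
            exact ⟨fun h => ⟨h1 _ (hdm i hi).2, h⟩, fun h => h.2⟩
          · rintro ⟨p1, p2⟩ hp
            rw [mem_HT] at hp
            have h4 : p1 ∈ R := by
              apply hback s _ p1 hp.1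
              intro z hz
              obtain ⟨i, hi, rfl⟩ := (hR z).1 hz
              exact h1 i hi
            obtain ⟨b, hb, rfl⟩ := (hR p1).1 h4
            refine ⟨3 * a + b, by omega, ?_⟩
            have e1 : (3 * a + b) % 3 = b := by omega
            have e2 : (3 * a + b) / 3 = a := by omega
            have h3' : p2 = r a := hp.2
            simp only [e1, e2, h3']
        · refine ⟨0, ?_, fun i _ => Nat.zero_testBit i, Or.inl rfl⟩
          intro i hi
          rw [Nat.zero_testBit, hmem i hi]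
          constructor
          · intro h; exact absurd h (by simp)
          · intro h; exact absurd h.1 (h1 _ (hdm i hi).2)
        · refine ⟨2 ^ (3 * a + b), ?_, ?_, Or.inr (Or.inl (mem_bits _ (by omega)))⟩
          · intro i hi
            rw [single_bit _ (by omega), hmem i hi, h1 _ (hdm i hi).2]
            omega
          · intro i hi
            rw [Nat.testBit_two_pow]
            simp
            omega
      · refine ⟨0, ?_, fun i _ => Nat.zero_testBit i, Or.inl rfl⟩
        intro i hi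
        rw [Nat.zero_testBit, mem_HT]
        constructor
        · intro h; exact absurd h (by simp)
        · rintro ⟨h1, h2⟩
          exact absurd ((hR y).2 ⟨_, (hdm i hi).1, h2⟩) hy
    · obtain ⟨⟨y, s⟩, -, rfl⟩ := mem_image.1 hA
      by_cases hy : y ∈ R
      · obtain ⟨a, ha, rfl⟩ := (hR y).1 hy
        have hmem : ∀ i < 9, ((r (i % 3), r (i / 3)) ∈ VT R (r a, s) ↔
            r (i / 3) - s ∈ R ∧ i % 3 = a) := by
          intro i hi
          rw [mem_VT]
          constructor
          · rintro ⟨h1, h2⟩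
            exact ⟨h2, hr _ (hdm i hi).2 _ ha h1⟩
          · rintro ⟨h1, h2⟩
            exact ⟨by rw [h2], h1⟩
        rcases htrace s with h1 | h1 | ⟨b, hb, h1⟩
        · obtain ⟨t, ht, h2, h3⟩ := hcol a ha
          refine ⟨t, ?_, h3, Or.inr (Or.inr ⟨ht, ?_⟩)⟩
          · intro i hi
            rw [h2 i hi, hmem i hi]
            exact ⟨fun h => ⟨h1 _ (hdm i hi).1, h⟩, fun h => h.2⟩
          · rintro ⟨p1, p2⟩ hp
            rw [mem_VT] at hp
            have h4 : p2 ∈ R := by
              apply hback s _ p2 hp.2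
              intro z hz
              obtain ⟨i, hi, rfl⟩ := (hR z).1 hz
              exact h1 i hi
            obtain ⟨b, hb, rfl⟩ := (hR p2).1 h4
            refine ⟨3 * b + a, by omega, ?_⟩
            have e1 : (3 * b + a) % 3 = a := by omega
            have e2 : (3 * b + a) / 3 = b := by omega
            have h3' : p1 = r a := hp.1
            simp only [e1, e2, h3']
        · refine ⟨0, ?_, fun i _ => Nat.zero_testBit i, Or.inl rfl⟩
          intro i hi
          rw [Nat.zero_testBit, hmem i hi]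
          constructor
          · intro h; exact absurd h (by simp)
          · intro h; exact absurd h.1 (h1 _ (hdm i hi).1)
        · refine ⟨2 ^ (3 * b + a), ?_, ?_, Or.inr (Or.inl (mem_bits _ (by omega)))⟩
          · intro i hi
            rw [single_bit _ (by omega), hmem i hi, h1 _ (hdm i hi).1]
            omega
          · intro i hi
            rw [Nat.testBit_two_pow]
            simp
            omega
      · refine ⟨0, ?_, fun i _ => Nat.zero_testBit i, Or.inl rfl⟩
        intro i hi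
        rw [Nat.zero_testBit, mem_VT]
        constructor
        · intro h; exact absurd h (by simp)
        · rintro ⟨h1, h2⟩
          exact absurd ((hR y).2 ⟨_, (hdm i hi).2, h1⟩) hy

end Pool.Agent.V11304.UC
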