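import Mathlib
import Pool.Agent.V11304.UC.Torus
import Pool.Agent.V11304.UC.Grid

/-!
The classification of the 3-sets and the main inequality.
-/

set_option autoImplicit false
set_option linter.unusedSectionVars false
set_option linter.unusedVariables false

namespace Pool.Agent.V11304.UC

open Finset

variable {n : ℕ} [NeZero n]

/-- bitmask of a Boolean function -/
def tc (k : ℕ) (f : ℕ → Bool) : ℕ := (List.range k).foldr (fun i s => (bif f i then 2 ^ i else 0) + s) 0

/-! ### Arithmetic progressions -/

def shA (p : ℤ) : List ℤ := [p, p + 1, p + 2]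

theorem ap_window (R : Finset (ZMod n)) (b d : ZMod n)
    (hR : ∀ z, z ∈ R ↔ z = b ∨ z = b + d ∨ z = b + 2 * d)
    {k : ℕ} {c : ℕ → ℕ} {full part : List ℕ} (hgood : Good k c full part)
    (K3 : ∀ i < k, 2 ^ i ∈ part) (hc : 0 < ∑ i ∈ range k, c i) (hk : k ≤ 5)
    (zb : ℤ → Bool) (hsym : ∀ c : ℕ, zb (-(c : ℤ)) = zb c)
    (hzn : ∀ c : ℕ, c ≤ 6 → ((c : ZMod n) * d = 0 ↔ zb c = true)) (cand : List ℤ)
    (hcb : ∀ p ∈ cand, -2 ≤ p ∧ p ≤ (k : ℤ) - 1)
    (hinj : ∀ i < k, ∀ j < k, zb ((i : ℤ) - j) = true → i = j)
    (hcand : ∀ i < k, (i : ℤ) ∈ cand ∧ (i : ℤ) - 1 ∈ cand ∧ (i : ℤ) - 2 ∈ cand)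
    (hdec : ∀ p ∈ cand, ∃ t : ℕ, (∀ i < k, t.testBit i = (shA p).any (fun q => zb ((i : ℤ) - q))) ∧
      t < 2 ^ k ∧ (t = 0 ∨ t ∈ part ∨
        (t ∈ full ∧ ∀ q ∈ shA p, ∃ i < k, zb ((i : ℤ) - q) = true)))
    (hfull : ∀ t ∈ full, ∃ p ∈ cand,
      (∀ i < k, t.testBit i = (shA p).any (fun q => zb ((i : ℤ) - q))) ∧
      ∀ q ∈ shA p, ∃ i < k, zb ((i : ℤ) - q) = true)
    (p : ZMod n × ZMod n) : (FF R).card ≤ 2 * deg R p := by
  have hz : ∀ c : ℤ, -6 ≤ c → c ≤ 6 → ((c : ZMod n) * d = 0 ↔ zb c = true) := by
    intro c h1 h2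
    rcases Int.eq_nat_or_neg c with ⟨m, rfl | rfl⟩
    · rw [Int.cast_natCast]
      exact hzn m (by omega)
    · rw [hsym m, Int.cast_neg, Int.cast_natCast, neg_mul, neg_eq_zero]
      exact hzn m (by omega)
  have hel : ∀ i j : ℤ, ((i : ZMod n) * d = (j : ZMod n) * d ↔ ((i - j : ℤ) : ZMod n) * d = 0) := by
    intro i j
    rw [Int.cast_sub, sub_mul, sub_eq_zero]
  refine of_index R hgood K3 hc (fun c : ℤ => (c : ZMod n) * d) b (fun i => (i : ℤ)) shA cand
    (fun i q => zb (i - q)) ?_ ?_ ?_ ?_ hdec hfull p
  · intro i hi p hp q hq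
    obtain ⟨h1, h2⟩ := hcb p hp
    have h3 : p ≤ q ∧ q ≤ p + 2 := by
      simp only [shA, List.mem_cons, List.not_mem_nil, or_false] at hq
      rcases hq with rfl | rfl | rfl <;> omega
    show ((i : ℤ) : ZMod n) * d = (q : ZMod n) * d ↔ _
    rw [hel]
    exact hz _ (by omega) (by omega)
  · intro i hi j hj h
    apply hinj i hi j hj
    have h' : (((i : ℤ) : ZMod n)) * d = ((j : ℤ) : ZMod n) * d := h
    rw [hel] at h'
    exact (hz _ (by omega) (by omega)).1 h'
  · intro s i hi h
    obtain ⟨c0, c1, c2⟩ := hcand i hi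
    have h' : ((i : ℤ) : ZMod n) * d - s ∈ R := h
    rcases (hR _).1 h' with h1 | h1 | h1
    · refine ⟨_, c0, ?_⟩
      show s + b = ((i : ℤ) : ZMod n) * d
      rw [← h1]; ring
    · refine ⟨_, c1, ?_⟩
      show s + b = (((i : ℤ) - 1 : ℤ) : ZMod n) * d
      have h2 : b = ((i : ℤ) : ZMod n) * d - s - d := by rw [h1]; ring
      rw [h2]; push_cast; ring
    · refine ⟨_, c2, ?_⟩
      show s + b = (((i : ℤ) - 2 : ℤ) : ZMod n) * d
      have h2 : b = ((i : ℤ) : ZMod n) * d - s - 2 * d := by rw [h1]; ring
      rw [h2]; push_cast; ring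
  · intro p hp z
    rw [hR]
    simp only [shA, List.mem_cons, List.not_mem_nil, or_false]
    constructor
    · rintro (h | h | h)
      · refine ⟨p, Or.inl rfl, ?_⟩
        have : z = (z - ((p : ZMod n) * d - b)) + ((p : ZMod n) * d - b) := by ring
        rw [this, h]; ring
      · refine ⟨p + 1, Or.inr (Or.inl rfl), ?_⟩
        have : z = (z - ((p : ZMod n) * d - b)) + ((p : ZMod n) * d - b) := by ring
        rw [this, h]; push_cast; ring
      · refine ⟨p + 2, Or.inr (Or.inr rfl), ?_⟩
        have : z = (z - ((p : ZMod n) * d - b)) + ((p : ZMod n) * d - b) := by ring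
        rw [this, h]; push_cast; ring
    · rintro ⟨q, rfl | rfl | rfl, rfl⟩
      · left; ring
      · right; left; push_cast; ring
      · right; right; push_cast; ring

def zb4 (c : ℤ) : Bool := decide (c = 0 ∨ c = 4 ∨ c = -4)
def zb5 (c : ℤ) : Bool := decide (c = 0 ∨ c = 5 ∨ c = -5)
def zb6 (c : ℤ) : Bool := decide (c = 0 ∨ c = 6 ∨ c = -6)
def zb7 (c : ℤ) : Bool := decide (c = 0)

theorem ap_case (R : Finset (ZMod n)) (b d : ZMod n)
    (hR : ∀ z, z ∈ R ↔ z = b ∨ z = b + d ∨ z = b + 2 * d)
    (h1 : d ≠ 0) (h2 : 2 * d ≠ 0) (h3 : 3 * d ≠ 0) (p : ZMod n × ZMod n) :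
    (FF R).card ≤ 2 * deg R p := by
  by_cases h4 : 4 * d = 0
  · have h5 : 5 * d ≠ 0 := fun h => h1 (by linear_combination h - h4)
    have h6 : 6 * d ≠ 0 := fun h => h2 (by linear_combination h - h4)
    refine ap_window R b d hR good_ap4 (by decide) (by decide) (by norm_num) zb4 ?_ ?_
      [-2, -1, 0, 1, 2, 3] (by decide) (by decide) (by decide) ?_ (by decide) p
    · intro c
      simp only [zb4]
      apply decide_eq_decide.2
      omega
    · intro c hc
      interval_cases c
      · simp [zb4]
      · simpa [zb4] using h1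
      · simpa [zb4] using h2
      · simpa [zb4] using h3
      · simpa [zb4] using h4
      · simpa [zb4] using h5
      · simpa [zb4] using h6
    · intro p hp
      refine ⟨tc 4 (fun i => (shA p).any (fun q => zb4 ((i : ℤ) - q))), ?_⟩
      revert p
      decide
  by_cases h5 : 5 * d = 0
  · have h6 : 6 * d ≠ 0 := fun h => h1 (by linear_combination h - h5)
    refine ap_window R b d hR good_ap5 (by decide) (by decide) (by norm_num) zb5 ?_ ?_
      [-2, -1, 0, 1, 2, 3, 4] (by decide) (by decide) (by decide) ?_ (by decide) p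
    · intro c
      simp only [zb5]
      apply decide_eq_decide.2
      omega
    · intro c hc
      interval_cases c
      · simp [zb5]
      · simpa [zb5] using h1
      · simpa [zb5] using h2
      · simpa [zb5] using h3
      · simpa [zb5] using h4
      · simpa [zb5] using h5
      · simpa [zb5] using h6
    · intro p hp
      refine ⟨tc 5 (fun i => (shA p).any (fun q => zb5 ((i : ℤ) - q))), ?_⟩
      revert p
      decide
  by_cases h6 : 6 * d = 0
  · refine ap_window R b d hR good_ap6 (by decide) (by decide) (by norm_num) zb6 ?_ ?_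
      [-2, -1, 0, 1, 2, 3, 4] (by decide) (by decide) (by decide) ?_ (by decide) p
    · intro c
      simp only [zb6]
      apply decide_eq_decide.2
      omega
    · intro c hc
      interval_cases c
      · simp [zb6]
      · simpa [zb6] using h1
      · simpa [zb6] using h2
      · simpa [zb6] using h3
      · simpa [zb6] using h4
      · simpa [zb6] using h5
      · simpa [zb6] using h6
    · intro p hp
      refine ⟨tc 5 (fun i => (shA p).any (fun q => zb6 ((i : ℤ) - q))), ?_⟩
      revert p
      decide
  · refine ap_window R b d hR good_ap6 (by decide) (by decide) (by norm_num) zb7 ?_ ?_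
      [-2, -1, 0, 1, 2, 3, 4] (by decide) (by decide) (by decide) ?_ (by decide) p
    · intro c
      simp only [zb7]
      apply decide_eq_decide.2
      omega
    · intro c hc
      interval_cases c
      · simp [zb7]
      · simpa [zb7] using h1
      · simpa [zb7] using h2
      · simpa [zb7] using h3
      · simpa [zb7] using h4
      · simpa [zb7] using h5
      · simpa [zb7] using h6
    · intro p hp
      refine ⟨tc 5 (fun i => (shA p).any (fun q => zb7 ((i : ℤ) - q))), ?_⟩
      revert p
      decide

/-! ### An involution difference -/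

def shI (p : ℤ × Bool) : List (ℤ × Bool) := [p, (p.1, !p.2), (p.1 + 1, p.2)]

def wiI (m : ℕ) : ℤ × Bool := (((m / 2 : ℕ) : ℤ), m % 2 == 1)

def candI : List (ℤ × Bool) :=
  [(-1, false), (-1, true), (0, false), (0, true), (1, false), (1, true), (2, false), (2, true)]

theorem inv_window (R : Finset (ZMod n)) (x a b : ZMod n) (ha2 : a + a = 0)
    (hR : ∀ z, z ∈ R ↔ z = x ∨ z = x + a ∨ z = x + b)
    {c : ℕ → ℕ} {full part : List ℕ} (hgood : Good 6 c full part)
    (K3 : ∀ i < 6, 2 ^ i ∈ part) (hc : 0 < ∑ i ∈ range 6, c i)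
    (zb : ℤ → Bool → Bool) (hsym : ∀ (c : ℕ) (e : Bool), zb (-(c : ℤ)) e = zb c e)
    (hzn : ∀ c : ℕ, c ≤ 3 → ∀ e : Bool,
      ((c : ZMod n) * b + (if e = true then a else 0) = 0 ↔ zb c e = true))
    (hinj : ∀ i < 6, ∀ j < 6, zb ((wiI i).1 - (wiI j).1) (xor (wiI i).2 (wiI j).2) = true → i = j)
    (hdec : ∀ p ∈ candI, ∃ t : ℕ, (∀ i < 6, t.testBit i =
        (shI p).any (fun q => zb ((wiI i).1 - q.1) (xor (wiI i).2 q.2))) ∧
      t < 2 ^ 6 ∧ (t = 0 ∨ t ∈ part ∨ (t ∈ full ∧ ∀ q ∈ shI p, ∃ i < 6,
        zb ((wiI i).1 - q.1) (xor (wiI i).2 q.2) = true)))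
    (hfull : ∀ t ∈ full, ∃ p ∈ candI, (∀ i < 6, t.testBit i =
        (shI p).any (fun q => zb ((wiI i).1 - q.1) (xor (wiI i).2 q.2))) ∧
      ∀ q ∈ shI p, ∃ i < 6, zb ((wiI i).1 - q.1) (xor (wiI i).2 q.2) = true)
    (p : ZMod n × ZMod n) : (FF R).card ≤ 2 * deg R p := by
  have hneg : -a = a := neg_eq_of_add_eq_zero_left ha2
  have hz : ∀ c : ℤ, -3 ≤ c → c ≤ 3 → ∀ e : Bool,
      ((c : ZMod n) * b + (if e = true then a else 0) = 0 ↔ zb c e = true) := by
    intro c h1 h2 e
    rcases Int.eq_nat_or_neg c with ⟨m, rfl | rfl⟩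
    · rw [Int.cast_natCast]
      exact hzn m (by omega) e
    · rw [hsym m, Int.cast_neg, Int.cast_natCast, ← hzn m (by omega) e]
      have h3 : (if e = true then a else 0 : ZMod n) + (if e = true then a else 0) = 0 := by
        split_ifs
        · exact ha2
        · simp
      constructor
      · intro h; linear_combination -h + h3
      · intro h; linear_combination -h + h3
  have hel : ∀ (i j : ℤ) (e f : Bool), ((i : ZMod n) * b + (if e = true then a else 0) =
      (j : ZMod n) * b + (if f = true then a else 0) ↔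
      ((i - j : ℤ) : ZMod n) * b + (if xor e f = true then a else 0) = 0) := by
    intro i j e f
    rw [Int.cast_sub]
    cases e <;> cases f
    · simp only [Bool.xor_false, Bool.false_eq_true, if_false, add_zero, sub_mul, sub_eq_zero]
    · simp only [Bool.false_xor, if_true, Bool.false_eq_true, if_false, add_zero]
      constructor
      · intro h; linear_combination h + ha2
      · intro h; linear_combination h - ha2
    · simp only [Bool.xor_false, if_true, Bool.false_eq_true, if_false, add_zero]
      constructor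
      · intro h; linear_combination h
      · intro h; linear_combination h
    · simp only [Bool.xor_self, if_true, Bool.false_eq_true, if_false, add_zero]
      constructor
      · intro h; linear_combination h
      · intro h; linear_combination h
  have hwi : ∀ i < 6, 0 ≤ (wiI i).1 ∧ (wiI i).1 ≤ 2 := by decide
  have hcb : ∀ p ∈ candI, -1 ≤ p.1 ∧ p.1 ≤ 2 := by decide
  have hcand' : ∀ i < 6, wiI i ∈ candI ∧ ((wiI i).1, !(wiI i).2) ∈ candI ∧
      ((wiI i).1 - 1, (wiI i).2) ∈ candI := by decide
  refine of_index R hgood K3 hc (fun c : ℤ × Bool => (c.1 : ZMod n) * b +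
    (if c.2 = true then a else 0)) x wiI shI candI
    (fun i q => zb (i.1 - q.1) (xor i.2 q.2)) ?_ ?_ ?_ ?_ hdec hfull p
  · intro i hi p hp q hq
    obtain ⟨h1, h2⟩ := hcb p hp
    obtain ⟨h3, h4⟩ := hwi i hi
    have h5 : p.1 ≤ q.1 ∧ q.1 ≤ p.1 + 1 := by
      simp only [shI, List.mem_cons, List.not_mem_nil, or_false] at hq
      rcases hq with rfl | rfl | rfl <;> constructor <;> simp
    show ((wiI i).1 : ZMod n) * b + (if (wiI i).2 = true then a else 0) =
      (q.1 : ZMod n) * b + (if q.2 = true then a else 0) ↔ _
    rw [hel]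
    exact hz _ (by omega) (by omega) _
  · intro i hi j hj h
    apply hinj i hi j hj
    obtain ⟨h3, h4⟩ := hwi i hi
    obtain ⟨h5, h6⟩ := hwi j hj
    have h' : ((wiI i).1 : ZMod n) * b + (if (wiI i).2 = true then a else 0) =
      ((wiI j).1 : ZMod n) * b + (if (wiI j).2 = true then a else 0) := h
    rw [hel] at h'
    exact (hz _ (by omega) (by omega) _).1 h'
  · intro s i hi h
    obtain ⟨c0, c1, c2⟩ := hcand' i hi
    have h' : ((wiI i).1 : ZMod n) * b + (if (wiI i).2 = true then a else 0) - s ∈ R := h
    rcases (hR _).1 h' with h1 | h1 | h1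
    · refine ⟨_, c0, ?_⟩
      show s + x = ((wiI i).1 : ZMod n) * b + (if (wiI i).2 = true then a else 0)
      linear_combination -h1
    · refine ⟨_, c1, ?_⟩
      show s + x = ((wiI i).1 : ZMod n) * b + (if (!(wiI i).2) = true then a else 0)
      cases h2 : (wiI i).2
      · rw [h2] at h1
        simp only [Bool.false_eq_true, if_false, add_zero] at h1
        simp only [Bool.not_false, if_true]
        linear_combination -h1 - ha2
      · rw [h2] at h1
        simp only [if_true] at h1
        simp only [Bool.not_true, Bool.false_eq_true, if_false, add_zero]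
        linear_combination -h1
    · refine ⟨_, c2, ?_⟩
      show s + x = (((wiI i).1 - 1 : ℤ) : ZMod n) * b + (if (wiI i).2 = true then a else 0)
      push_cast
      linear_combination -h1
  · intro p hp z
    rw [hR]
    simp only [shI, List.mem_cons, List.not_mem_nil, or_false]
    obtain ⟨j, e⟩ := p
    constructor
    · rintro (h | h | h)
      · refine ⟨(j, e), Or.inl rfl, ?_⟩
        linear_combination h
      · refine ⟨(j, !e), Or.inr (Or.inl rfl), ?_⟩
        cases e
        · simp only [Bool.false_eq_true, if_false, add_zero, Bool.not_false, if_true] at h ⊢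
          linear_combination h
        · simp only [Bool.false_eq_true, if_false, add_zero, Bool.not_true, if_true] at h ⊢
          linear_combination h + ha2
      · refine ⟨(j + 1, e), Or.inr (Or.inr rfl), ?_⟩
        simp only
        push_cast
        linear_combination h
    · rintro ⟨q, rfl | rfl | rfl, rfl⟩
      · left; ring
      · right; left
        cases e
        · simp only [Bool.false_eq_true, if_false, add_zero, Bool.not_false, if_true]
          ring
        · simp only [Bool.false_eq_true, if_false, add_zero, Bool.not_true, if_true]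
          linear_combination -ha2
      · right; right
        simp only
        push_cast
        ring

def zi0 (c : ℤ) (e : Bool) : Bool := decide (c = 0) && !e
def zi1 (c : ℤ) (e : Bool) : Bool := decide (c = 0 ∨ c = 3 ∨ c = -3) && !e
def zi2 (c : ℤ) (e : Bool) : Bool := (decide (c = 0) && !e) || (decide (c = 3 ∨ c = -3) && e)

theorem inv_case (R : Finset (ZMod n)) (x a b : ZMod n) (ha : a ≠ 0) (ha2 : a + a = 0)
    (hR : ∀ z, z ∈ R ↔ z = x ∨ z = x + a ∨ z = x + b) (hb : b ≠ 0) (hab : b ≠ a)
    (hb2 : 2 * b ≠ 0) (hb2a : 2 * b ≠ a) (p : ZMod n × ZMod n) :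
    (FF R).card ≤ 2 * deg R p := by
  have hba : b + a ≠ 0 := fun h => hab (by linear_combination h - ha2)
  have hb2a' : 2 * b + a ≠ 0 := fun h => hb2a (by linear_combination h - ha2)
  by_cases h3 : 3 * b = 0
  · have h3' : 3 * b + a ≠ 0 := fun h => ha (by linear_combination h - h3)
    refine inv_window R x a b ha2 hR good_inv3 (by decide) (by decide) zi1 ?_ ?_
      (by decide) ?_ (by decide) p
    · intro c e
      simp only [zi1]
      congr 1
      apply decide_eq_decide.2
      omega
    · intro c hc e
      interval_cases c <;> cases e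
      · simp [zi1]
      · simpa [zi1] using ha
      · simpa [zi1] using hb
      · simpa [zi1] using hba
      · simpa [zi1] using hb2
      · simpa [zi1] using hb2a'
      · simpa [zi1] using h3
      · simpa [zi1] using h3'
    · intro p hp
      refine ⟨tc 6 (fun i => (shI p).any (fun q => zi1 ((wiI i).1 - q.1) (xor (wiI i).2 q.2))), ?_⟩
      revert p
      decide
  by_cases h3a : 3 * b + a = 0
  · refine inv_window R x a b ha2 hR good_inv3 (by decide) (by decide) zi2 ?_ ?_
      (by decide) ?_ (by decide) p
    · intro c e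
      simp only [zi2]
      have e1 : decide (-(c : ℤ) = 0) = decide ((c : ℤ) = 0) := by
        apply decide_eq_decide.2; omega
      have e2 : decide (-(c : ℤ) = 3 ∨ -(c : ℤ) = -3) = decide ((c : ℤ) = 3 ∨ (c : ℤ) = -3) := by
        apply decide_eq_decide.2; omega
      rw [e1, e2]
    · intro c hc e
      interval_cases c <;> cases e
      · simp [zi2]
      · simpa [zi2] using ha
      · simpa [zi2] using hb
      · simpa [zi2] using hba
      · simpa [zi2] using hb2
      · simpa [zi2] using hb2a'
      · simpa [zi2] using h3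
      · simpa [zi2] using h3a
    · intro p hp
      refine ⟨tc 6 (fun i => (shI p).any (fun q => zi2 ((wiI i).1 - q.1) (xor (wiI i).2 q.2))), ?_⟩
      revert p
      decide
  · refine inv_window R x a b ha2 hR good_inv (by decide) (by decide) zi0 ?_ ?_
      (by decide) ?_ (by decide) p
    · intro c e
      simp only [zi0]
      congr 1
      apply decide_eq_decide.2
      omega
    · intro c hc e
      interval_cases c <;> cases e
      · simp [zi0]
      · simpa [zi0] using ha
      · simpa [zi0] using hb
      · simpa [zi0] using hba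
      · simpa [zi0] using hb2
      · simpa [zi0] using hb2a'
      · simpa [zi0] using h3
      · simpa [zi0] using h3a
    · intro p hp
      refine ⟨tc 6 (fun i => (shI p).any (fun q => zi0 ((wiI i).1 - q.1) (xor (wiI i).2 q.2))), ?_⟩
      revert p
      decide

/-! ### Classification -/

theorem unique_invol {a b : ZMod n} (ha : a ≠ 0) (hb : b ≠ 0) (h2a : 2 * a = 0) (h2b : 2 * b = 0) :
    a = b := by
  have key : ∀ c : ZMod n, c ≠ 0 → 2 * c = 0 → 2 * c.val = n := by
    intro c hc h2c
    have h1 : ((2 * c.val : ℕ) : ZMod n) = 0 := by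
      push_cast
      rw [ZMod.natCast_zmod_val]
      exact h2c
    rw [ZMod.natCast_eq_zero_iff] at h1
    have h2 : 0 < c.val := by
      rw [Nat.pos_iff_ne_zero]
      intro h
      exact hc ((ZMod.val_eq_zero c).1 h)
    have h3 := ZMod.val_lt c
    obtain ⟨m, hm⟩ := h1
    have h4 : m = 1 := by
      have h5 : n * m < n * 2 := by omega
      have h6 : m < 2 := Nat.lt_of_mul_lt_mul_left h5
      have h7 : m ≠ 0 := by
        rintro rfl
        omega
      omega
    rw [h4] at hm
    omega
  apply ZMod.val_injective
  have h1 := key a ha h2a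
  have h2 := key b hb h2b
  omega

theorem main (R : Finset (ZMod n)) (hR : R.card = 3) (p : ZMod n × ZMod n) :
    (FF R).card ≤ 2 * deg R p := by
  classical
  by_cases hgen : ∀ s, (∀ z ∈ R, z - s ∈ R) ∨
      (∀ z ∈ R, ∀ z' ∈ R, z - s ∈ R → z' - s ∈ R → z = z')
  · obtain ⟨x, y, z, hxy, hxz, hyz, rfl⟩ := Finset.card_eq_three.1 hR
    refine of_grid grid_check _ (fun i => if i = 0 then x else if i = 1 then y else z) ?_ ?_ hgen p
    · intro i hi j hj h
      interval_cases i <;> interval_cases j <;> simp_all
    · intro w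
      simp only [mem_insert, mem_singleton]
      constructor
      · rintro (rfl | rfl | rfl)
        · exact ⟨0, by norm_num, by simp⟩
        · exact ⟨1, by norm_num, by simp⟩
        · exact ⟨2, by norm_num, by simp⟩
      · rintro ⟨i, hi, rfl⟩
        interval_cases i <;> simp
  · push Not at hgen
    obtain ⟨s, ⟨z0, hz0, hz0s⟩, z, hz, z', hz', hzs, hzs', hne⟩ := hgen
    have hs0 : s ≠ 0 := by
      rintro rfl
      rw [sub_zero] at hz0s
      exact hz0s hz0
    have hzz : z - s ≠ z := by
      intro h
      exact hs0 (by linear_combination -h)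
    -- the third element
    have hcard : ((R.erase z).erase (z - s)).card = 1 := by
      rw [Finset.card_erase_of_mem (mem_erase.2 ⟨hzz, hzs⟩), Finset.card_erase_of_mem hz, hR]
    obtain ⟨w, hw⟩ := Finset.card_eq_one.1 hcard
    have hwR : w ∈ R ∧ w ≠ z ∧ w ≠ z - s := by
      have : w ∈ (R.erase z).erase (z - s) := by rw [hw]; simp
      rw [mem_erase, mem_erase] at this
      exact ⟨this.2.2, this.2.1, this.1⟩
    have hmem : ∀ v, v ∈ R ↔ v = z ∨ v = z - s ∨ v = w := by
      intro v
      constructor
      · intro hv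
        by_cases h1 : v = z
        · exact Or.inl h1
        · by_cases h2 : v = z - s
          · exact Or.inr (Or.inl h2)
          · have : v ∈ (R.erase z).erase (z - s) := mem_erase.2 ⟨h2, mem_erase.2 ⟨h1, hv⟩⟩
            rw [hw, mem_singleton] at this
            exact Or.inr (Or.inr this)
      · rintro (rfl | rfl | rfl)
        · exact hz
        · exact hzs
        · exact hwR.1
    -- arithmetic progressions
    have hAP : ∀ b0 : ZMod n, (∀ v, v ∈ R ↔ v = b0 ∨ v = b0 + s ∨ v = b0 + 2 * s) →
        2 * s ≠ 0 → (FF R).card ≤ 2 * deg R p := by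
      intro b0 hb0 h2s
      refine ap_case R b0 s hb0 hs0 h2s ?_ p
      intro h3s
      apply hz0s
      rw [hb0]
      rcases (hb0 z0).1 hz0 with h | h | h
      · right; right
        rw [h]; linear_combination -h3s
      · left
        rw [h]; ring
      · right; left
        rw [h]; ring
    by_cases h2s : 2 * s = 0
    · -- involution difference
      have hss : s + s = 0 := by linear_combination h2s
      have hR' : ∀ v, v ∈ R ↔ v = z ∨ v = z + s ∨ v = z + (w - z) := by
        intro v
        rw [hmem]
        have e1 : z - s = z + s := by linear_combination -hss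
        have e2 : z + (w - z) = w := by ring
        rw [e1, e2]
      have hb0 : w - z ≠ 0 := sub_ne_zero.2 hwR.2.1
      have hbs : w - z ≠ s := by
        intro h
        apply hwR.2.2
        linear_combination h + hss
      by_cases hb2 : 2 * (w - z) = 0
      · exact absurd (unique_invol hb0 hs0 hb2 h2s) hbs
      · by_cases hb2s : 2 * (w - z) = s
        · refine ap_case R z (w - z) ?_ hb0 hb2 ?_ p
          · intro v
            rw [hR' v, hb2s]
            tauto
          · intro h3
            apply hbs
            linear_combination h3 - hb2s - hss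
        · exact inv_case R z s (w - z) hs0 hss hR' hb0 hbs hb2 hb2s p
    · rcases (hmem z').1 hz' with h | h | h
      · exact absurd h.symm hne
      · -- z' = z - s
        rw [h] at hzs'
        rcases (hmem _).1 hzs' with h1 | h1 | h1
        · exact absurd (by linear_combination -h1) h2s
        · exact absurd (by linear_combination -h1) hs0
        · apply hAP w _ h2s
          intro v
          rw [hmem, ← h1]
          have e1 : z - s - s + s = z - s := by ring
          have e2 : z - s - s + 2 * s = z := by ring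
          rw [e1, e2]
          tauto
      · -- z' = w
        rw [h] at hzs'
        rcases (hmem _).1 hzs' with h1 | h1 | h1
        · apply hAP (z - s) _ h2s
          intro v
          rw [hmem]
          have e1 : z - s + s = z := by ring
          have e2 : z - s + 2 * s = w := by linear_combination -h1
          rw [e1, e2]
          tauto
        · exact absurd (by linear_combination h1) hwR.2.1
        · exact absurd (by linear_combination -h1) hs0

end Pool.Agent.V11304.UC
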